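import Mathlib

/-!
Project CP (MP_123306_an): contractions of planar sets of finite measure onto polygons
modulo null sets.  Definitions and the exact statements of the pieces.
-/

namespace Pool.Agent.R244.CP

open MeasureTheory Set Metric
open scoped NNReal ENNReal

/-- The Euclidean plane. -/
abbrev E2 : Type := EuclideanSpace ℝ (Fin 2)

/-- A set is a polygon if its boundary can be covered by finitely many line segments. -/
def IsPolygon (P : Set E2) : Prop :=
  ∃ S : Finset (E2 × E2), frontier P ⊆ ⋃ s ∈ S, segment ℝ s.1 s.2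

/-- `x` is a contact point of `h`: a paraboloid of opening one touches `h` from above at `x`. -/
def Contact (h : E2 → ℝ) (x : E2) : Prop :=
  ∃ v : E2, ∀ z : E2, h z ≤ h x + inner ℝ v (z - x) + ‖z - x‖ ^ 2 / 2

/-- The polyhedral convex function `x ↦ max_{(q,b) ∈ J} (⟪q,x⟫ - b)`. -/
noncomputable def pl (J : Finset (E2 × ℝ)) (x : E2) : ℝ :=
  sSup ((fun j : E2 × ℝ => inner ℝ j.1 x - j.2) '' (J : Set (E2 × ℝ)))

theorem le_pl {J : Finset (E2 × ℝ)} {j : E2 × ℝ} (hj : j ∈ J) (x : E2) :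
    inner ℝ j.1 x - j.2 ≤ pl J x :=
  le_csSup ((J.finite_toSet.image _).bddAbove) ⟨j, hj, rfl⟩

theorem exists_pl {J : Finset (E2 × ℝ)} (hJ : J.Nonempty) (x : E2) :
    ∃ j ∈ J, pl J x = inner ℝ j.1 x - j.2 := by
  have hne : ((fun j : E2 × ℝ => inner ℝ j.1 x - j.2) '' (J : Set (E2 × ℝ))).Nonempty :=
    (Finset.coe_nonempty.mpr hJ).image _
  obtain ⟨j, hj, h⟩ := hne.csSup_mem (J.finite_toSet.image _)
  exact ⟨j, hj, h.symm⟩

theorem pl_le {J : Finset (E2 × ℝ)} (hJ : J.Nonempty) {x : E2} {c : ℝ}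
    (h : ∀ j ∈ J, inner ℝ j.1 x - j.2 ≤ c) : pl J x ≤ c := by
  obtain ⟨j, hj, e⟩ := exists_pl hJ x
  rw [e]; exact h j hj

/-- `h` is `L`-Lipschitz (real constant). -/
def Lip (L : ℝ) (h : E2 → ℝ) : Prop := ∀ x y : E2, |h x - h y| ≤ L * ‖x - y‖

/-- The package of properties of a collapse map `F` with exceptional null set `Z` and
displacement at most `L`. -/
def Collapse (h : E2 → ℝ) (L : ℝ) (F : E2 → E2) (Z : Set E2) : Prop :=
  LipschitzWith 1 F ∧ (∀ x, ‖F x - x‖ ≤ L) ∧ Function.Surjective F ∧ volume Z = 0 ∧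
    (∀ x y, F x = F y → F x ∉ Z → x = y) ∧ (∀ x, F x ∉ Z → Contact h x)

end Pool.Agent.R244.CP
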