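import Pool.Agent.R244.CP.Stm

namespace Pool.Agent.R244.CP

open MeasureTheory Set Metric
open scoped NNReal ENNReal Classical

theorem image_symmDiff_sub {α β : Type*} (F : α → β) (A B : Set α) :
    symmDiff (F '' A) (F '' B) ⊆ F '' (symmDiff A B) := by
  rintro y (⟨⟨x, hx, rfl⟩, hy⟩ | ⟨⟨x, hx, rfl⟩, hy⟩)
  · refine ⟨x, Or.inl ⟨hx, fun hb => hy ⟨x, hb, rfl⟩⟩, rfl⟩
  · refine ⟨x, Or.inr ⟨hx, fun hb => hy ⟨x, hb, rfl⟩⟩, rfl⟩

theorem sub_union_symmDiff {α : Type*} (A B : Set α) : A ⊆ B ∪ symmDiff A B := by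
  intro x hx
  by_cases hb : x ∈ B
  · exact Or.inl hb
  · exact Or.inr (Or.inl ⟨hx, hb⟩)

theorem t_MAIN (hLIM : S_LIM) (hKEYB : S_KEYB) (hPROX : S_PROX) (hPOLY : S_POLY)
    (hPSET : S_PSET) (hJ : S_JORDAN) (hA : S_APPROX) (hM : S_MEAS) (hE : S_ERODE)
    (hF : S_FRONT) : S_MAIN := by
  intro E hEm hEf ε hε
  obtain ⟨G0, hG0c, hG0f, hG0⟩ := hA E hEm hEf (ε / 4) (by positivity)
  obtain ⟨L0, hL0, hL0'⟩ := hE G0 hG0c hG0f (ε / 4) (by positivity)
  set ε1 : ℝ := L0 / 2 with hε1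
  have hε1pos : 0 < ε1 := by positivity
  set κ : ℝ := ε1 ^ 2 / 32 with hκ
  have hκpos : 0 < κ := by positivity
  obtain ⟨G, hGc, hGf, hG⟩ := hA E hEm hEf κ hκpos
  have hlt : volume (symmDiff E G) < ENNReal.ofReal (2 * κ) :=
    lt_of_le_of_lt hG ((ENNReal.ofReal_lt_ofReal_iff (by positivity)).2 (by linarith))
  obtain ⟨W, hWsub, hWo, hWv⟩ := Set.exists_isOpen_lt_of_lt (symmDiff E G) _ hlt
  have hWtop : volume W < ⊤ := lt_trans hWv ENNReal.ofReal_lt_top
  have hW16 : 16 * (volume W).toReal ≤ ε1 ^ 2 := by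
    have h1 : (volume W).toReal ≤ 2 * κ := by
      have := ENNReal.toReal_mono ENNReal.ofReal_ne_top hWv.le
      rwa [ENNReal.toReal_ofReal (by positivity)] at this
    have h2 : 2 * κ = ε1 ^ 2 / 16 := by rw [hκ]; ring
    linarith
  obtain ⟨h, hconv, hLip, hnc⟩ := hLIM W hWo hWtop ε1 hε1pos hW16
  obtain ⟨k, F, Z, -, -, hCol⟩ := hPROX h (2 * ε1) (by positivity) hconv hLip
  obtain ⟨hF1, hFd, hFs, hZ, hFi, hFc⟩ := id hCol
  have hFW : volume (F '' W) = 0 := by
    refine measure_mono_null ?_ hZ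
    rintro _ ⟨x, hx, rfl⟩
    by_contra hxZ
    exact hnc x hx (hFc x hxZ)
  have hd1 : volume (symmDiff (F '' E) (F '' G)) = 0 :=
    measure_mono_null ((image_symmDiff_sub F E G).trans (image_mono hWsub)) hFW
  set K : Set E2 := F '' G with hK
  have hKc : IsCompact K := hGc.image hF1.continuous
  have hKf : volume (frontier K) = 0 := hF h _ F Z hCol G hGc hGf
  have hb1 : volume E ≤ volume G0 + ENNReal.ofReal (ε / 4) :=
    (measure_mono (sub_union_symmDiff E G0)).trans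
      ((measure_union_le _ _).trans (by gcongr))
  have hb2 : volume G0 ≤ volume (F '' G0) + ENNReal.ofReal (ε / 4) := by
    refine hL0' F hFs (fun x => (hFd x).trans (le_of_eq ?_))
    rw [hε1]; ring
  have hb3 : volume (F '' G0) ≤ volume (F '' E) + ENNReal.ofReal (ε / 4) := by
    have hsub : F '' G0 ⊆ F '' E ∪ F '' (symmDiff E G0) := by
      rw [← image_union]
      apply image_mono
      have := sub_union_symmDiff G0 E
      rwa [symmDiff_comm] at this
    exact (measure_mono hsub).trans ((measure_union_le _ _).trans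
      (by gcongr; exact (hM F hF1 _).trans hG0))
  have hb4 : volume (F '' E) ≤ volume K := by
    have := (measure_mono (sub_union_symmDiff (F '' E) K)).trans (measure_union_le (μ := volume) _ _)
    rwa [hd1, add_zero] at this
  obtain ⟨L1, hL1, hL1'⟩ := hE K hKc hKf (ε / 4) (by positivity)
  set ε2 : ℝ := L1 / 2 with hε2
  have hε2pos : 0 < ε2 := by positivity
  obtain ⟨V, W1, hVc, hW1o, hVW, hW1, hPol⟩ := hJ K hKc hKf (ε2 ^ 2 / 16) (by positivity)
  have hW1top : volume W1 < ⊤ := lt_of_le_of_lt hW1 ENNReal.ofReal_lt_top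
  have hW116 : 16 * (volume W1).toReal ≤ ε2 ^ 2 := by
    have h1 : (volume W1).toReal ≤ ε2 ^ 2 / 16 := by
      have := ENNReal.toReal_mono ENNReal.ofReal_ne_top hW1
      rwa [ENNReal.toReal_ofReal (by positivity)] at this
    linarith
  obtain ⟨J, hJne, hJb, hJnc⟩ := hKEYB V W1 hVc hW1o hVW hW1top ε2 hε2pos hW116
  obtain ⟨b, Ψ, Z', hCol', hmax⟩ := hPOLY J (2 * ε2) hJne (by positivity) hJb
  obtain ⟨hP1, hPd, hPs, hZ', hPi, hPc⟩ := hCol'
  set P : Set E2 := {p : E2 | ∃ j ∈ J, p + j.1 ∈ K \ V ∧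
      ∀ i ∈ J, inner ℝ i.1 p - b i ≤ inner ℝ j.1 p - b j} with hP
  have hPpoly : IsPolygon P := hPSET (K \ V) (hKc.isBounded.subset diff_subset) hPol J b
  have hd2 : volume (symmDiff (Ψ '' K) P) = 0 := by
    refine measure_mono_null ?_ hZ'
    intro p hp
    by_contra hpZ
    rcases hp with ⟨⟨x, hx, hxp⟩, hp2⟩ | ⟨⟨j, hj, hjK, hjm⟩, hp2⟩
    · obtain ⟨j, hj, hjm⟩ := Finset.exists_max_image J (fun j => inner ℝ j.1 p - b j) hJne
      have h1 : Ψ (p + j.1) = p := hmax p j hj hjm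
      have h2 : x = p + j.1 := hPi x (p + j.1) (by rw [hxp, h1]) (by rw [hxp]; exact hpZ)
      have h3 : x ∉ V := fun hxV => hJnc x hxV (hPc x (by rw [hxp]; exact hpZ))
      exact hp2 ⟨j, hj, by rw [← h2]; exact ⟨hx, h3⟩, hjm⟩
    · exact hp2 ⟨p + j.1, hjK.1, hmax p j hj hjm⟩
  have hd3 : volume (symmDiff (Ψ '' (F '' E)) (Ψ '' K)) = 0 := by
    have h1 : volume (Ψ '' (symmDiff (F '' E) K)) = 0 :=
      le_antisymm ((hM Ψ hP1 _).trans (le_of_eq hd1)) bot_le
    exact measure_mono_null (image_symmDiff_sub Ψ (F '' E) K) h1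
  have himg : (Ψ ∘ F) '' E = Ψ '' (F '' E) := image_comp Ψ F E
  have hN : volume (symmDiff ((Ψ ∘ F) '' E) P) = 0 := by
    rw [himg]
    refine measure_mono_null (symmDiff_triangle (Ψ '' (F '' E)) (Ψ '' K) P) ?_
    exact measure_union_null hd3 hd2
  refine ⟨Ψ ∘ F, symmDiff ((Ψ ∘ F) '' E) P, ?_, hN, ?_, ?_⟩
  · have := (hP1.comp hF1)
    rw [mul_one] at this
    exact this.lipschitzOnWith
  · have hb5 : volume K ≤ volume (Ψ '' K) + ENNReal.ofReal (ε / 4) := by
      refine hL1' Ψ hPs (fun x => (hPd x).trans (le_of_eq ?_))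
      rw [hε2]; ring
    have hb6 : volume (Ψ '' K) ≤ volume ((Ψ ∘ F) '' E) := by
      rw [himg]
      have := (measure_mono (sub_union_symmDiff (Ψ '' K) (Ψ '' (F '' E)))).trans
        (measure_union_le (μ := volume) _ _)
      rwa [symmDiff_comm, hd3, add_zero] at this
    have hsum : ENNReal.ofReal ε = ENNReal.ofReal (ε / 4) + ENNReal.ofReal (ε / 4) +
        ENNReal.ofReal (ε / 4) + ENNReal.ofReal (ε / 4) := by
      rw [← ENNReal.ofReal_add (by positivity) (by positivity),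
        ← ENNReal.ofReal_add (by positivity) (by positivity),
        ← ENNReal.ofReal_add (by positivity) (by positivity)]
      congr 1; ring
    calc volume E ≤ volume G0 + ENNReal.ofReal (ε / 4) := hb1
      _ ≤ (volume (F '' G0) + ENNReal.ofReal (ε / 4)) + ENNReal.ofReal (ε / 4) := by gcongr
      _ ≤ ((volume (F '' E) + ENNReal.ofReal (ε / 4)) + ENNReal.ofReal (ε / 4)) +
            ENNReal.ofReal (ε / 4) := by gcongr
      _ ≤ (((volume (Ψ '' K) + ENNReal.ofReal (ε / 4)) + ENNReal.ofReal (ε / 4)) +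
            ENNReal.ofReal (ε / 4)) + ENNReal.ofReal (ε / 4) := by
          gcongr; exact hb4.trans hb5
      _ ≤ (((volume ((Ψ ∘ F) '' E) + ENNReal.ofReal (ε / 4)) + ENNReal.ofReal (ε / 4)) +
            ENNReal.ofReal (ε / 4)) + ENNReal.ofReal (ε / 4) := by gcongr
      _ = volume ((Ψ ∘ F) '' E) + ENNReal.ofReal ε := by rw [hsum]; ring
  · rw [symmDiff_symmDiff_cancel_left]
    exact hPpoly

end Pool.Agent.R244.CP
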