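import Pool.Agent.R244.CP.Stm

/-! # Project CP, piece APPROX -/

set_option autoImplicit false

namespace Pool.Agent.R244.CP

open MeasureTheory Set Metric
open scoped NNReal ENNReal Topology

theorem t_APPROX : S_APPROX := by
  intro E hE hfin δ hδ
  obtain ⟨E', hE'E, hE'm, hE'e⟩ := hE.exists_measurable_subset_ae_eq
  have hδ2 : ENNReal.ofReal (δ / 2) ≠ 0 := by
    rw [Ne, ENNReal.ofReal_eq_zero, not_le]
    positivity
  have hE'f : volume E' ≠ ⊤ := ((measure_mono hE'E).trans_lt hfin).ne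
  obtain ⟨C, hCE, hCc, hC⟩ := hE'm.exists_isCompact_sdiff_lt hE'f hδ2
  obtain ⟨O, hCO, hOo, -, hO⟩ := hCc.measurableSet.exists_isOpen_sdiff_lt
    (hCc.measure_lt_top (μ := (volume : Measure E2))).ne hδ2
  have h1 : ∀ x : E2, ∃ r : ℝ, 0 < r ∧ (x ∈ C → closedBall x r ⊆ O) := by
    intro x
    by_cases hx : x ∈ C
    · obtain ⟨r, hr, hrO⟩ := nhds_basis_closedBall.mem_iff.1 (hOo.mem_nhds (hCO hx))
      exact ⟨r, hr, fun _ => hrO⟩
    · exact ⟨1, one_pos, fun h => absurd h hx⟩
  choose r hr hrO using h1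
  obtain ⟨t, htC, hCt⟩ := hCc.elim_nhds_subcover (fun x => closedBall x (r x))
    (fun x _ => closedBall_mem_nhds x (hr x))
  set G : Set E2 := ⋃ x ∈ t, closedBall x (r x) with hG
  have hGc : IsCompact G := t.isCompact_biUnion fun x _ => isCompact_closedBall x (r x)
  have hGO : G ⊆ O := iUnion₂_subset fun x hx => hrO x (htC x hx)
  refine ⟨G, hGc, ?_, ?_⟩
  · have hsub : frontier G ⊆ ⋃ x ∈ t, sphere x (r x) := by
      intro y hy
      rw [hGc.isClosed.frontier_eq] at hy
      obtain ⟨hyG, hyi⟩ := hy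
      rw [hG, mem_iUnion₂] at hyG
      obtain ⟨x, hx, hyx⟩ := hyG
      rw [mem_iUnion₂]
      refine ⟨x, hx, ?_⟩
      rw [mem_closedBall] at hyx
      rw [mem_sphere]
      refine le_antisymm hyx (not_lt.1 fun hlt => hyi ?_)
      rw [mem_interior]
      refine ⟨ball x (r x), ?_, isOpen_ball, mem_ball.2 hlt⟩
      exact ball_subset_closedBall.trans (subset_biUnion_of_mem (u := fun x => closedBall x (r x)) hx)
    refine measure_mono_null hsub ?_
    refine (measure_biUnion_null_iff (I := (t : Set E2)) t.countable_toSet).2 ?_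
    intro x _
    exact Measure.addHaar_sphere_of_ne_zero _ _ (hr x).ne'
  · have hsub : symmDiff E G ⊆ (E \ C) ∪ (O \ C) := by
      rintro y (⟨hyE, hyG⟩ | ⟨hyG, hyE⟩)
      · exact Or.inl ⟨hyE, fun hyC => hyG (hCt hyC)⟩
      · exact Or.inr ⟨hGO hyG, fun hyC => hyE (hE'E (hCE hyC))⟩
    have h2 : volume (E \ C) = volume (E' \ C) :=
      measure_congr ((hE'e.symm).diff (ae_eq_refl C))
    calc volume (symmDiff E G) ≤ volume ((E \ C) ∪ (O \ C)) := measure_mono hsub
      _ ≤ volume (E \ C) + volume (O \ C) := measure_union_le _ _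
      _ ≤ ENNReal.ofReal (δ / 2) + ENNReal.ofReal (δ / 2) := by
          rw [h2]
          exact add_le_add hC.le hO.le
      _ = ENNReal.ofReal δ := by
          rw [← ENNReal.ofReal_add (by positivity) (by positivity), add_halves]

end Pool.Agent.R244.CP
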