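import Pool.Agent.R244.CP.Stm

/-! Piece ERODE of project CP. -/

namespace Pool.Agent.R244.CP

open MeasureTheory Set Metric Filter
open scoped NNReal ENNReal Classical Topology

theorem t_ERODE : S_ERODE := by
  intro G hG hfr δ hδ
  let S : ℕ → Set E2 := fun n => {p | closedBall p (1 / ((n : ℝ) + 1)) ⊆ G}
  have hmono : Monotone S := by
    intro m n hmn p hp
    refine Subset.trans (closedBall_subset_closedBall ?_) hp
    exact one_div_le_one_div_of_le (by positivity) (by gcongr)
  have hint : interior G ⊆ ⋃ n, S n := by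
    intro p hp
    obtain ⟨r, hr, hrG⟩ := Metric.isOpen_iff.mp isOpen_interior p hp
    obtain ⟨n, hn⟩ := exists_nat_one_div_lt hr
    refine mem_iUnion.mpr ⟨n, ?_⟩
    exact (closedBall_subset_ball hn).trans (hrG.trans interior_subset)
  have h1 : volume G ≤ volume (⋃ n, S n) := by
    have h2 : G ⊆ interior G ∪ frontier G := by
      rw [← closure_eq_interior_union_frontier]; exact subset_closure
    calc volume G ≤ volume (interior G ∪ frontier G) := measure_mono h2
      _ ≤ volume (interior G) + volume (frontier G) := measure_union_le _ _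
      _ = volume (interior G) := by rw [hfr, add_zero]
      _ ≤ _ := measure_mono hint
  have hlim : Tendsto (fun n => volume (S n) + ENNReal.ofReal δ) atTop
      (𝓝 (volume (⋃ n, S n) + ENNReal.ofReal δ)) :=
    (tendsto_measure_iUnion_atTop hmono).add tendsto_const_nhds
  have hlt : volume G < volume (⋃ n, S n) + ENNReal.ofReal δ := by
    refine lt_of_lt_of_le ?_ (add_le_add h1 le_rfl)
    exact ENNReal.lt_add_right hG.measure_lt_top.ne (by simpa using hδ)
  obtain ⟨n, hn⟩ := (hlim.eventually (lt_mem_nhds hlt)).exists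
  refine ⟨1 / ((n : ℝ) + 1), by positivity, ?_⟩
  intro F hF hL
  refine hn.le.trans (add_le_add (measure_mono ?_) le_rfl)
  intro p hp
  obtain ⟨x, rfl⟩ := hF p
  refine ⟨x, hp ?_, rfl⟩
  rw [mem_closedBall, dist_comm, dist_eq_norm]
  exact hL x

end Pool.Agent.R244.CP
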