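import Pool.Agent.R244.CP.Stm

/-! Piece FRONT of project CP. -/

namespace Pool.Agent.R244.CP

open MeasureTheory Set Metric Filter
open scoped NNReal ENNReal Classical Topology

theorem t_FRONT (hM : S_MEAS) : S_FRONT := by
  intro h L F Z hcol G hG hfr
  obtain ⟨hF, hL, hsurj, hZ, hinj, -⟩ := hcol
  have hK : IsCompact (F '' G) := hG.image hF.continuous
  have hsub : frontier (F '' G) ⊆ F '' (frontier G) ∪ Z := by
    intro p hp
    by_cases hpZ : p ∈ Z
    · exact Or.inr hpZ
    left
    rw [frontier_eq_closure_inter_closure] at hp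
    obtain ⟨hp1, hp2⟩ := hp
    rw [hK.isClosed.closure_eq] at hp1
    obtain ⟨x', hx'G, hx'⟩ := hp1
    obtain ⟨u, hu, hup⟩ := mem_closure_iff_seq_limit.mp hp2
    choose x hx using fun n => hsurj (u n)
    have hxG : ∀ n, x n ∉ G := fun n hn => hu n ⟨x n, hn, hx n⟩
    have hbd : Bornology.IsBounded (range u) := Metric.isBounded_range_of_tendsto u hup
    obtain ⟨C, hC⟩ := hbd.subset_closedBall (0 : E2)
    have hxC : ∀ n, x n ∈ closedBall (0 : E2) (C + L) := by
      intro n
      rw [mem_closedBall_zero_iff]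
      have h1 : ‖u n‖ ≤ C := by
        have := hC (mem_range_self n)
        rwa [mem_closedBall_zero_iff] at this
      have h2 := hL (x n)
      rw [hx n] at h2
      calc ‖x n‖ = ‖u n - (u n - x n)‖ := by congr 1; abel
        _ ≤ ‖u n‖ + ‖u n - x n‖ := norm_sub_le _ _
        _ ≤ C + L := add_le_add h1 h2
    obtain ⟨y, -, φ, hφ, hy⟩ :=
      (isCompact_closedBall (0 : E2) (C + L)).tendsto_subseq hxC
    have hFy : F y = p := by
      have h1 : Tendsto (fun n => F (x (φ n))) atTop (𝓝 (F y)) :=
        (hF.continuous.tendsto y).comp hy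
      have h2 : Tendsto (fun n => F (x (φ n))) atTop (𝓝 p) := by
        simp only [hx]
        exact hup.comp hφ.tendsto_atTop
      exact tendsto_nhds_unique h1 h2
    have hyc : y ∈ closure Gᶜ :=
      mem_closure_of_tendsto hy (Eventually.of_forall fun n => hxG (φ n))
    have hyx : y = x' := hinj y x' (by rw [hFy, hx']) (by rw [hFy]; exact hpZ)
    refine ⟨y, ?_, hFy⟩
    rw [frontier_eq_closure_inter_closure]
    exact ⟨subset_closure (by rw [hyx]; exact hx'G), hyc⟩
  have h1 : volume (F '' (frontier G)) = 0 :=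
    le_antisymm ((hM F hF _).trans hfr.le) (by simp)
  exact measure_mono_null hsub (measure_union_null h1 hZ)

end Pool.Agent.R244.CP
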