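import Pool.Agent.R244.CP.Stm

/-!
# CP-GRIDQ: the grid of slopes (helper179)
-/

set_option autoImplicit false

namespace Pool.Agent.R244.CP

open MeasureTheory Set Metric
open scoped Classical

namespace GRIDQ

theorem normsq_eq (x : E2) : ‖x‖ ^ 2 = x 0 ^ 2 + x 1 ^ 2 := by
  rw [EuclideanSpace.norm_sq_eq, Fin.sum_univ_two]
  simp

/-- the grid point -/
noncomputable def pt (τ : ℝ) (z : ℤ × ℤ) : E2 := !₂[z.1 * τ, z.2 * τ]

theorem pt_zero (τ : ℝ) (z : ℤ × ℤ) : pt τ z 0 = z.1 * τ := by simp [pt]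

theorem pt_one (τ : ℝ) (z : ℤ × ℤ) : pt τ z 1 = z.2 * τ := by simp [pt]

theorem pt_inj {τ : ℝ} (hτ : 0 < τ) : Function.Injective (pt τ) := by
  intro z z' h
  have h0 : pt τ z 0 = pt τ z' 0 := by rw [h]
  have h1 : pt τ z 1 = pt τ z' 1 := by rw [h]
  rw [pt_zero, pt_zero] at h0
  rw [pt_one, pt_one] at h1
  have e0 := mul_right_cancel₀ hτ.ne' h0
  have e1 := mul_right_cancel₀ hτ.ne' h1
  exact Prod.ext (by exact_mod_cast e0) (by exact_mod_cast e1)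

theorem abs_coord_le (x : E2) (i : Fin 2) : |x i| ≤ ‖x‖ := by
  have h := normsq_eq x
  apply abs_le_of_sq_le_sq _ (norm_nonneg x)
  rw [h]
  fin_cases i
  · simp only [Fin.zero_eta, Fin.isValue]; nlinarith [sq_nonneg (x 1)]
  · simp only [Fin.mk_one, Fin.isValue]; nlinarith [sq_nonneg (x 0)]

theorem card_Icc_le {a b L : ℝ} (h : b - a ≤ L) (hL : 0 ≤ L) :
    ((Finset.Icc ⌈a⌉ ⌊b⌋).card : ℝ) ≤ L + 1 := by
  rw [Int.card_Icc]
  have h1 : (⌊b⌋ : ℝ) ≤ b := Int.floor_le b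
  have h2 : a ≤ (⌈a⌉ : ℝ) := Int.le_ceil a
  rcases le_total 0 (⌊b⌋ + 1 - ⌈a⌉) with h0 | h0
  · have h3 : (((⌊b⌋ + 1 - ⌈a⌉).toNat : ℤ) : ℝ) = ((⌊b⌋ + 1 - ⌈a⌉ : ℤ) : ℝ) := by
      rw [Int.toNat_of_nonneg h0]
    have h4 : (((⌊b⌋ + 1 - ⌈a⌉).toNat : ℕ) : ℝ) = ((⌊b⌋ + 1 - ⌈a⌉ : ℤ) : ℝ) := by
      rw [← h3]; exact (Int.cast_natCast _).symm
    rw [h4]
    push_cast
    linarith
  · rw [Int.toNat_of_nonpos h0]
    simp; linarith

end GRIDQ

open GRIDQ in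
theorem t_GRIDQ : S_GRIDQ := by
  intro ε τ hτ hε
  have hε0 : 0 < ε := by linarith
  set N : ℕ := ⌈ε / τ⌉₊ with hN
  have hN1 : ε / τ ≤ N := Nat.le_ceil _
  have hN2 : (N : ℝ) < ε / τ + 1 := Nat.ceil_lt_add_one (by positivity)
  have hN3 : (N : ℝ) * τ ≤ 5 / 4 * ε := by
    have : (N : ℝ) * τ ≤ (ε / τ + 1) * τ := by gcongr
    have h2 : (ε / τ + 1) * τ = ε + τ := by field_simp
    linarith
  have hN4 : ε ≤ N * τ := by
    have : ε / τ * τ ≤ N * τ := by gcongr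
    rwa [div_mul_cancel₀ _ hτ.ne'] at this
  set I : Finset ℤ := Finset.Icc (-(N : ℤ)) N with hI
  set Q : Finset E2 := (I ×ˢ I).image (pt τ) with hQ
  have hIcard : I.card = 2 * N + 1 := by
    rw [hI, Int.card_Icc]; omega
  have hQcard : (Q.card : ℝ) = (2 * N + 1) ^ 2 := by
    rw [hQ, Finset.card_image_of_injective _ (pt_inj hτ), Finset.card_product, hIcard]
    push_cast; ring
  refine ⟨Q, ?_, ?_, ?_, ?_⟩
  · refine ⟨pt τ (0, 0), ?_⟩
    rw [hQ]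
    refine Finset.mem_image_of_mem _ ?_
    rw [Finset.mem_product, hI]
    simp
  · intro q hq
    rw [hQ, Finset.mem_image] at hq
    obtain ⟨z, hz, rfl⟩ := hq
    rw [Finset.mem_product, hI, Finset.mem_Icc, Finset.mem_Icc] at hz
    obtain ⟨⟨ha, hb⟩, hc, hd⟩ := hz
    have ha' : -(N : ℝ) ≤ z.1 := by exact_mod_cast ha
    have hb' : (z.1 : ℝ) ≤ N := by exact_mod_cast hb
    have hc' : -(N : ℝ) ≤ z.2 := by exact_mod_cast hc
    have hd' : (z.2 : ℝ) ≤ N := by exact_mod_cast hd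
    have h1 : (z.1 : ℝ) ^ 2 ≤ (N : ℝ) ^ 2 := sq_le_sq' ha' hb'
    have h2 : (z.2 : ℝ) ^ 2 ≤ (N : ℝ) ^ 2 := sq_le_sq' hc' hd'
    apply le_of_sq_le_sq _ (by positivity)
    rw [normsq_eq, pt_zero, pt_one]
    have h3 : ((N : ℝ) * τ) ^ 2 ≤ (5 / 4 * ε) ^ 2 := by
      apply pow_le_pow_left₀ (by positivity) hN3
    nlinarith [sq_nonneg τ, sq_nonneg ε, mul_le_mul_of_nonneg_right h1 (sq_nonneg τ),
      mul_le_mul_of_nonneg_right h2 (sq_nonneg τ)]
  · rw [hQcard]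
    have h1 : 2 * ε ≤ τ * (2 * N + 1) := by nlinarith
    have h2 : (2 * ε) ^ 2 ≤ (τ * (2 * N + 1)) ^ 2 := pow_le_pow_left₀ (by positivity) h1 2
    nlinarith
  · intro v r hr
    have hr0 : 0 < r := by linarith
    set I0 : Finset ℤ := Finset.Icc ⌈(v 0 - 3 * r) / τ⌉ ⌊(v 0 + 3 * r) / τ⌋ with hI0
    set I1 : Finset ℤ := Finset.Icc ⌈(v 1 - 3 * r) / τ⌉ ⌊(v 1 + 3 * r) / τ⌋ with hI1
    have hc0 : (I0.card : ℝ) ≤ 6 * r / τ + 1 := by
      apply card_Icc_le _ (by positivity)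
      rw [← sub_div]
      apply le_of_eq; ring
    have hc1 : (I1.card : ℝ) ≤ 6 * r / τ + 1 := by
      apply card_Icc_le _ (by positivity)
      rw [← sub_div]
      apply le_of_eq; ring
    have hsub : Q.filter (fun q => dist q v ≤ 3 * r) ⊆ (I0 ×ˢ I1).image (pt τ) := by
      intro q hq
      rw [Finset.mem_filter] at hq
      obtain ⟨hqQ, hd⟩ := hq
      rw [hQ, Finset.mem_image] at hqQ
      obtain ⟨z, -, rfl⟩ := hqQ
      refine Finset.mem_image_of_mem _ ?_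
      rw [dist_eq_norm] at hd
      have h0 := (abs_coord_le (pt τ z - v) 0).trans hd
      have h1 := (abs_coord_le (pt τ z - v) 1).trans hd
      rw [PiLp.sub_apply, pt_zero] at h0
      rw [PiLp.sub_apply, pt_one] at h1
      rw [abs_le] at h0 h1
      rw [Finset.mem_product, hI0, hI1, Finset.mem_Icc, Finset.mem_Icc]
      refine ⟨⟨?_, ?_⟩, ?_, ?_⟩
      · rw [Int.ceil_le, div_le_iff₀ hτ]; linarith
      · rw [Int.le_floor, le_div_iff₀ hτ]; linarith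
      · rw [Int.ceil_le, div_le_iff₀ hτ]; linarith
      · rw [Int.le_floor, le_div_iff₀ hτ]; linarith
    have hcard : ((Q.filter (fun q => dist q v ≤ 3 * r)).card : ℝ) ≤ (6 * r / τ + 1) ^ 2 := by
      have h1 : (Q.filter (fun q => dist q v ≤ 3 * r)).card ≤ I0.card * I1.card := by
        refine (Finset.card_le_card hsub).trans (Finset.card_image_le.trans ?_)
        rw [Finset.card_product]
      have h2 : ((Q.filter (fun q => dist q v ≤ 3 * r)).card : ℝ) ≤ (I0.card : ℝ) * I1.card := by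
        exact_mod_cast h1
      refine h2.trans ?_
      rw [sq]
      exact mul_le_mul hc0 hc1 (by positivity) (by positivity)
    calc τ ^ 2 * ((Q.filter (fun q => dist q v ≤ 3 * r)).card : ℝ)
        ≤ τ ^ 2 * (6 * r / τ + 1) ^ 2 := by gcongr
      _ = (6 * r + τ) ^ 2 := by field_simp
      _ ≤ 38 * r ^ 2 := by nlinarith

end Pool.Agent.R244.CP
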