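import Pool.Agent.R244.CP.Stm

/-!
Project CP (helper244), piece GRIDX: grid points of an open set of finite measure.
-/

namespace Pool.Agent.R244.CP

open MeasureTheory Set Metric
open scoped NNReal ENNReal Classical

/-- grid cell -/
def gcell (s : ℝ) (c : Fin 2 → ℤ) : Set E2 :=
  {x | ∀ k, (c k : ℝ) * s ≤ x k ∧ x k < ((c k : ℝ) + 1) * s}

theorem gcell_eq (s : ℝ) (c : Fin 2 → ℤ) : gcell s c =
    (fun x : E2 => WithLp.ofLp x) ⁻¹'
      (Set.pi univ fun k => Ico ((c k : ℝ) * s) (((c k : ℝ) + 1) * s)) := by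
  ext x
  simp [gcell]

theorem gcell_meas (s : ℝ) (c : Fin 2 → ℤ) : MeasurableSet (gcell s c) := by
  rw [gcell_eq]
  exact (PiLp.volume_preserving_ofLp (Fin 2)).measurable
    (MeasurableSet.univ_pi fun k => measurableSet_Ico)

theorem gcell_vol (s : ℝ) (c : Fin 2 → ℤ) : volume (gcell s c) = ENNReal.ofReal s ^ 2 := by
  rw [gcell_eq]
  have h1 := (PiLp.volume_preserving_ofLp (Fin 2)).measure_preimage
    (MeasurableSet.univ_pi fun k : Fin 2 =>
      (measurableSet_Ico (a := (c k : ℝ) * s) (b := ((c k : ℝ) + 1) * s))).nullMeasurableSet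
  refine h1.trans ?_
  rw [Real.volume_pi_Ico, Fin.prod_univ_two, pow_two]
  congr 2 <;> ring

theorem gcell_disj {s : ℝ} (hs : 0 < s) {c c' : Fin 2 → ℤ} (h : c ≠ c') :
    Disjoint (gcell s c) (gcell s c') := by
  rw [Set.disjoint_left]
  intro x hx hx'
  apply h
  funext k
  have h1 := hx k
  have h2 := hx' k
  have h3 : (c k : ℝ) < (c' k : ℝ) + 1 := by
    have := lt_of_le_of_lt h1.1 h2.2
    exact lt_of_mul_lt_mul_right this hs.le
  have h4 : (c' k : ℝ) < (c k : ℝ) + 1 := by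
    have := lt_of_le_of_lt h2.1 h1.2
    exact lt_of_mul_lt_mul_right this hs.le
  have h5 : c k < c' k + 1 := by exact_mod_cast h3
  have h6 : c' k < c k + 1 := by exact_mod_cast h4
  omega

theorem gcell_count {W : Set E2} (hWfin : volume W < ⊤) {s : ℝ} (hs : 0 < s)
    (T : Finset (Fin 2 → ℤ)) (hT : ∀ c ∈ T, gcell s c ⊆ W) :
    (T.card : ℝ) * s ^ 2 ≤ (volume W).toReal := by
  have h1 : volume (⋃ c ∈ T, gcell s c) = ∑ c ∈ T, volume (gcell s c) :=
    measure_biUnion_finset (fun c _ c' _ h => gcell_disj hs h) fun c _ => gcell_meas s c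
  simp only [gcell_vol] at h1
  rw [Finset.sum_const, nsmul_eq_mul] at h1
  have h2 : volume (⋃ c ∈ T, gcell s c) ≤ volume W :=
    measure_mono (iUnion₂_subset hT)
  rw [h1] at h2
  have h3 := ENNReal.toReal_mono hWfin.ne h2
  rw [ENNReal.toReal_mul, ENNReal.toReal_natCast, ENNReal.toReal_pow,
    ENNReal.toReal_ofReal hs.le] at h3
  exact h3

theorem t_GRIDX : S_GRIDX := by
  intro W _ hWfin s hs
  have hfin : {c : Fin 2 → ℤ | gcell s c ⊆ W}.Finite := by
    by_contra hinf
    obtain ⟨N, hN⟩ := exists_nat_gt ((volume W).toReal / s ^ 2)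
    obtain ⟨T, hT1, hT2⟩ := (Set.not_finite.1 hinf).exists_subset_card_eq N
    have h1 := gcell_count hWfin hs T fun c hc => hT1 hc
    rw [hT2] at h1
    rw [div_lt_iff₀ (by positivity)] at hN
    linarith
  obtain ⟨pt, hpt⟩ : ∃ pt : (Fin 2 → ℤ) → E2, pt = fun c => WithLp.toLp 2 fun k => (c k : ℝ) * s :=
    ⟨_, rfl⟩
  have hptk : ∀ c k, pt c k = (c k : ℝ) * s := by intro c k; rw [hpt]
  have hinj : Function.Injective pt := by
    intro c c' h
    funext k
    have h1 : pt c k = pt c' k := by rw [h]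
    rw [hptk, hptk] at h1
    have h2 := mul_right_cancel₀ hs.ne' h1
    exact_mod_cast h2
  refine ⟨hfin.toFinset.image pt, ?_, ?_⟩
  · rw [Finset.card_image_of_injective _ hinj]
    exact gcell_count hWfin hs _ fun c hc => by simpa using hc
  · intro x₀ r hr hW
    have hr0 : 0 < r := by linarith
    have hball : ∀ x : E2, (∀ k, |x k - x₀ k| ≤ 7 / 10 * r) → dist x x₀ ≤ r := by
      intro x hx
      rw [EuclideanSpace.dist_eq, Fin.sum_univ_two]
      apply Real.sqrt_le_iff.2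
      refine ⟨hr0.le, ?_⟩
      have h0 := hx 0
      have h1 := hx 1
      rw [Real.dist_eq, Real.dist_eq]
      have h2 : |x 0 - x₀ 0| ^ 2 ≤ (7 / 10 * r) ^ 2 := pow_le_pow_left₀ (abs_nonneg _) h0 2
      have h3 : |x 1 - x₀ 1| ^ 2 ≤ (7 / 10 * r) ^ 2 := pow_le_pow_left₀ (abs_nonneg _) h1 2
      nlinarith
    obtain ⟨P, hP⟩ : ∃ P : Finset (Fin 2 → ℤ), P = Fintype.piFinset fun k =>
        Finset.Icc ⌈(x₀ k - 7 / 10 * r) / s⌉ (⌊(x₀ k + 7 / 10 * r) / s⌋ - 1) := ⟨_, rfl⟩
    have hPb : ∀ c ∈ P, ∀ k, x₀ k - 7 / 10 * r ≤ (c k : ℝ) * s ∧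
        ((c k : ℝ) + 1) * s ≤ x₀ k + 7 / 10 * r := by
      intro c hc k
      rw [hP, Fintype.mem_piFinset] at hc
      have h1 := Finset.mem_Icc.1 (hc k)
      constructor
      · have h2 := Int.ceil_le.1 h1.1
        rwa [div_le_iff₀ hs] at h2
      · have h3 : c k + 1 ≤ ⌊(x₀ k + 7 / 10 * r) / s⌋ := by omega
        have h4 := Int.le_floor.1 h3
        rw [le_div_iff₀ hs] at h4
        push_cast at h4
        exact h4
    have hPW : ∀ c ∈ P, gcell s c ⊆ W := by
      intro c hc x hx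
      apply hW
      rw [mem_closedBall]
      apply hball
      intro k
      have h1 := hPb c hc k
      have h2 := hx k
      rw [abs_le]
      constructor <;> linarith
    have hPd : ∀ c ∈ P, dist (pt c) x₀ ≤ r := by
      intro c hc
      apply hball
      intro k
      have h1 := hPb c hc k
      rw [hptk, abs_le]
      constructor
      · linarith
      · nlinarith
    have hcard : (P.card : ℝ) ≤
        (((hfin.toFinset.image pt).filter (fun x => dist x x₀ ≤ r)).card : ℝ) := by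
      have h1 : P.image pt ⊆ (hfin.toFinset.image pt).filter (fun x => dist x x₀ ≤ r) := by
        intro x hx
        obtain ⟨c, hc, rfl⟩ := Finset.mem_image.1 hx
        rw [Finset.mem_filter]
        refine ⟨Finset.mem_image.2 ⟨c, ?_, rfl⟩, hPd c hc⟩
        rw [Set.Finite.mem_toFinset]
        exact hPW c hc
      have h2 := Finset.card_le_card h1
      rw [Finset.card_image_of_injective _ hinj] at h2
      exact_mod_cast h2
    have hPc : (12 / 10 * r / s) ^ 2 ≤ (P.card : ℝ) := by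
      rw [hP, Fintype.card_piFinset, Fin.prod_univ_two]
      push_cast
      have h1 : ∀ k : Fin 2, 12 / 10 * r / s ≤
          ((Finset.Icc ⌈(x₀ k - 7 / 10 * r) / s⌉ (⌊(x₀ k + 7 / 10 * r) / s⌋ - 1)).card : ℝ) := by
        intro k
        rw [Int.card_Icc]
        have h2 := Int.ceil_lt_add_one ((x₀ k - 7 / 10 * r) / s)
        have h3 := Int.lt_floor_add_one ((x₀ k + 7 / 10 * r) / s)
        have h4 : ((⌊(x₀ k + 7 / 10 * r) / s⌋ - 1 + 1 - ⌈(x₀ k - 7 / 10 * r) / s⌉ : ℤ) : ℝ) ≤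
            ((⌊(x₀ k + 7 / 10 * r) / s⌋ - 1 + 1 - ⌈(x₀ k - 7 / 10 * r) / s⌉).toNat : ℝ) := by
          have := Int.self_le_toNat (⌊(x₀ k + 7 / 10 * r) / s⌋ - 1 + 1 - ⌈(x₀ k - 7 / 10 * r) / s⌉)
          exact_mod_cast this
        refine le_trans ?_ h4
        push_cast
        have h5 : (x₀ k + 7 / 10 * r) / s - (x₀ k - 7 / 10 * r) / s = 14 / 10 * r / s := by
          ring
        have h6 : 2 ≤ 2 / 10 * r / s := by
          rw [le_div_iff₀ hs]; linarith
        have h7 : 14 / 10 * r / s = 12 / 10 * r / s + 2 / 10 * r / s := by ring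
        linarith
      have h8 : 0 ≤ 12 / 10 * r / s := by positivity
      rw [pow_two]
      exact mul_le_mul (h1 0) (h1 1) h8 (h8.trans (h1 0))
    have h9 : s ^ 2 * (12 / 10 * r / s) ^ 2 ≤ s ^ 2 *
        (((hfin.toFinset.image pt).filter (fun x => dist x x₀ ≤ r)).card : ℝ) :=
      mul_le_mul_of_nonneg_left (hPc.trans hcard) (by positivity)
    have h10 : s ^ 2 * (12 / 10 * r / s) ^ 2 = 144 / 100 * r ^ 2 := by
      field_simp
      ring
    rw [h10] at h9
    nlinarith [sq_nonneg r]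

end Pool.Agent.R244.CP
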