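import Pool.Agent.R244.CP.Stm

/-!
# Project CP, piece JORDAN: Jordan measurable compact sets are polygons outside a small compact
set.
-/

namespace Pool.Agent.R244.CP

open MeasureTheory Set Metric
open scoped NNReal ENNReal Classical

namespace JORDANaux

/-- closed grid square -/
def Sq (s : ℝ) (a : ℤ × ℤ) : Set E2 :=
  {x | (a.1 : ℝ) * s ≤ x 0 ∧ x 0 ≤ ((a.1 : ℝ) + 1) * s ∧
    (a.2 : ℝ) * s ≤ x 1 ∧ x 1 ≤ ((a.2 : ℝ) + 1) * s}

/-- open grid square -/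
def Oq (s : ℝ) (a : ℤ × ℤ) : Set E2 :=
  {x | (a.1 : ℝ) * s < x 0 ∧ x 0 < ((a.1 : ℝ) + 1) * s ∧
    (a.2 : ℝ) * s < x 1 ∧ x 1 < ((a.2 : ℝ) + 1) * s}

lemma cont (i : Fin 2) : Continuous (fun x : E2 => x i) := by fun_prop

lemma coord_le (x : E2) (i : Fin 2) : |x i| ≤ ‖x‖ := by
  have h := EuclideanSpace.norm_eq x
  rw [Fin.sum_univ_two] at h
  simp only [Real.norm_eq_abs, sq_abs] at h
  rw [h]
  refine Real.le_sqrt_of_sq_le ?_
  rw [sq_abs]
  fin_cases i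
  · show x 0 ^ 2 ≤ _
    nlinarith [sq_nonneg (x 1)]
  · show x 1 ^ 2 ≤ _
    nlinarith [sq_nonneg (x 0)]

lemma dist_le (x y : E2) : dist x y ≤ |x 0 - y 0| + |x 1 - y 1| := by
  rw [EuclideanSpace.dist_eq, Fin.sum_univ_two]
  refine Real.sqrt_le_iff.mpr ⟨by positivity, ?_⟩
  simp only [Real.dist_eq]
  nlinarith [abs_nonneg (x 0 - y 0), abs_nonneg (x 1 - y 1),
    mul_nonneg (abs_nonneg (x 0 - y 0)) (abs_nonneg (x 1 - y 1))]

lemma sq_dist (s : ℝ) (a : ℤ × ℤ) (x y : E2) (hx : x ∈ Sq s a) (hy : y ∈ Sq s a) :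
    dist x y ≤ 2 * s := by
  obtain ⟨x1, x2, x3, x4⟩ := hx
  obtain ⟨y1, y2, y3, y4⟩ := hy
  have h1 : |x 0 - y 0| ≤ s := by rw [abs_le]; constructor <;> linarith
  have h2 : |x 1 - y 1| ≤ s := by rw [abs_le]; constructor <;> linarith
  linarith [dist_le x y]

lemma sq_closed (s : ℝ) (a : ℤ × ℤ) : IsClosed (Sq s a) :=
  (isClosed_le continuous_const (cont 0)).inter <|
    (isClosed_le (cont 0) continuous_const).inter <|
      (isClosed_le continuous_const (cont 1)).inter (isClosed_le (cont 1) continuous_const)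

lemma sq_compact (s : ℝ) (a : ℤ × ℤ) : IsCompact (Sq s a) :=
  Metric.isCompact_of_isClosed_isBounded (sq_closed s a)
    (Metric.isBounded_iff.mpr ⟨2 * s, fun x hx y hy => sq_dist s a x y hx hy⟩)

lemma oq_open (s : ℝ) (a : ℤ × ℤ) : IsOpen (Oq s a) :=
  (isOpen_lt continuous_const (cont 0)).inter <|
    (isOpen_lt (cont 0) continuous_const).inter <|
      (isOpen_lt continuous_const (cont 1)).inter (isOpen_lt (cont 1) continuous_const)

lemma oq_preconn (s : ℝ) (a : ℤ × ℤ) : IsPreconnected (Oq s a) := by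
  apply Convex.isPreconnected
  intro x hx y hy c d hc hd hcd
  obtain ⟨x1, x2, x3, x4⟩ := hx
  obtain ⟨y1, y2, y3, y4⟩ := hy
  have key : ∀ (u v L : ℝ), L < u → L < v → L < c * u + d * v := by
    intro u v L hu hv
    rcases hc.eq_or_lt with h | h
    · have : d = 1 := by linarith
      subst this; rw [← h]; linarith
    · have e : (c + d) * L = L := by rw [hcd, one_mul]
      nlinarith [mul_pos h (sub_pos.mpr hu), mul_nonneg hd (sub_pos.mpr hv).le]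
  have key2 : ∀ (u v L : ℝ), u < L → v < L → c * u + d * v < L := by
    intro u v L hu hv
    have := key (-u) (-v) (-L) (by linarith) (by linarith)
    linarith
  refine ⟨?_, ?_, ?_, ?_⟩
  · simpa using key _ _ _ x1 y1
  · simpa using key2 _ _ _ x2 y2
  · simpa using key _ _ _ x3 y3
  · simpa using key2 _ _ _ x4 y4

lemma oq_sub_sq (s : ℝ) (a : ℤ × ℤ) : Oq s a ⊆ Sq s a := fun _ ⟨h1, h2, h3, h4⟩ =>
  ⟨h1.le, h2.le, h3.le, h4.le⟩

lemma coord_eq (s : ℝ) (hs : 0 < s) (i j : ℤ) (x : ℝ) (h1 : (i : ℝ) * s < x)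
    (h2 : x < ((i : ℝ) + 1) * s) (h3 : (j : ℝ) * s ≤ x) (h4 : x ≤ ((j : ℝ) + 1) * s) :
    i = j := by
  have e1 : (j : ℝ) < i + 1 := lt_of_mul_lt_mul_right (h3.trans_lt h2) hs.le
  have e2 : (i : ℝ) < j + 1 := lt_of_mul_lt_mul_right (h1.trans_le h4) hs.le
  have e1' : j < i + 1 := by exact_mod_cast e1
  have e2' : i < j + 1 := by exact_mod_cast e2
  omega

lemma oq_sq (s : ℝ) (hs : 0 < s) (a b : ℤ × ℤ) (x : E2) (hx : x ∈ Oq s a) (hy : x ∈ Sq s b) :
    a = b := by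
  obtain ⟨x1, x2, x3, x4⟩ := hx
  obtain ⟨y1, y2, y3, y4⟩ := hy
  exact Prod.ext (coord_eq s hs _ _ _ x1 x2 y1 y2) (coord_eq s hs _ _ _ x3 x4 y3 y4)

lemma floor_bd (s : ℝ) (hs : 0 < s) (x : ℝ) (h : ∀ i : ℤ, x ≠ i * s) :
    ((⌊x / s⌋ : ℤ) : ℝ) * s < x ∧ x < ((⌊x / s⌋ : ℤ) + 1 : ℝ) * s := by
  constructor
  · refine lt_of_le_of_ne ?_ (h _).symm
    exact (le_div_iff₀ hs).mp (Int.floor_le _)
  · exact (div_lt_iff₀ hs).mp (Int.lt_floor_add_one _)

lemma seg_mem (R c : ℝ) (hR : 0 < R) (t : ℝ) (ht : |t| ≤ R) (u v p : E2)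
    (hu : u 0 = c ∧ u 1 = -R) (hv : v 0 = c ∧ v 1 = R) (hp : p 0 = c ∧ p 1 = t) :
    p ∈ segment ℝ u v := by
  rw [abs_le] at ht
  refine ⟨(R - t) / (2 * R), (R + t) / (2 * R), div_nonneg (by linarith) (by linarith),
    div_nonneg (by linarith) (by linarith), by field_simp; ring, ?_⟩
  ext i
  fin_cases i
  · simp only [PiLp.add_apply, PiLp.smul_apply, smul_eq_mul, Fin.zero_eta]
    simp only [hu.1, hv.1, hp.1]; field_simp; ring
  · simp only [PiLp.add_apply, PiLp.smul_apply, smul_eq_mul, Fin.mk_one]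
    simp only [hu.2, hv.2, hp.2]; field_simp; ring

lemma seg_mem' (R c : ℝ) (hR : 0 < R) (t : ℝ) (ht : |t| ≤ R) (u v p : E2)
    (hu : u 1 = c ∧ u 0 = -R) (hv : v 1 = c ∧ v 0 = R) (hp : p 1 = c ∧ p 0 = t) :
    p ∈ segment ℝ u v := by
  rw [abs_le] at ht
  refine ⟨(R - t) / (2 * R), (R + t) / (2 * R), div_nonneg (by linarith) (by linarith),
    div_nonneg (by linarith) (by linarith), by field_simp; ring, ?_⟩
  ext i
  fin_cases i
  · simp only [PiLp.add_apply, PiLp.smul_apply, smul_eq_mul, Fin.zero_eta]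
    simp only [hu.2, hv.2, hp.2]; field_simp; ring
  · simp only [PiLp.add_apply, PiLp.smul_apply, smul_eq_mul, Fin.mk_one]
    simp only [hu.1, hv.1, hp.1]; field_simp; ring

end JORDANaux

open JORDANaux in
theorem t_JORDAN : S_JORDAN := by
  intro K hK hfr δ hδ
  -- the open set
  obtain ⟨W, hW1, hW2, hW3⟩ := Set.exists_isOpen_lt_of_lt (frontier K) (ENNReal.ofReal δ)
    (by rw [hfr]; exact ENNReal.ofReal_pos.mpr hδ)
  have hfK : frontier K ⊆ K := by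
    have := frontier_subset_closure (s := K)
    rwa [hK.isClosed.closure_eq] at this
  have hfc : IsCompact (frontier K) := hK.of_isClosed_subset isClosed_frontier hfK
  obtain ⟨η, hη, hηW⟩ := hfc.exists_cthickening_subset_open hW2 hW1
  obtain ⟨R', hR'⟩ := hK.isBounded.subset_closedBall 0
  obtain ⟨R, hRdef⟩ : ∃ R : ℝ, R = max R' 1 := ⟨_, rfl⟩
  have hR : 0 < R := by rw [hRdef]; exact lt_of_lt_of_le one_pos (le_max_right _ _)
  have hKR : ∀ x ∈ K, ‖x‖ ≤ R := fun x hx => by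
    have := hR' hx
    rw [mem_closedBall, dist_zero_right] at this
    rw [hRdef]; exact this.trans (le_max_left _ _)
  obtain ⟨s, hsdef⟩ : ∃ s : ℝ, s = η / 2 := ⟨_, rfl⟩
  have hs : 0 < s := by rw [hsdef]; linarith
  obtain ⟨N, hN⟩ : ∃ N : ℕ, R / s + 1 ≤ N := exists_nat_ge _
  have hNs : R + s ≤ N * s := by
    have := mul_le_mul_of_nonneg_right hN hs.le
    rwa [add_mul, div_mul_cancel₀ _ hs.ne', one_mul] at this
  have hbd : ∀ (i : ℤ) (t : ℝ), |t| ≤ R → (i : ℝ) * s ≤ t → t ≤ ((i : ℝ) + 1) * s →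
      i ∈ Finset.Icc (-(N : ℤ)) N := by
    intro i t ht h1 h2
    rw [abs_le] at ht
    rw [Finset.mem_Icc]
    constructor
    · have h3 : (-(N : ℝ)) * s ≤ i * s := by linarith
      have h4 : (-(N : ℝ)) ≤ i := le_of_mul_le_mul_right h3 hs
      exact_mod_cast h4
    · have h3 : (i : ℝ) * s ≤ N * s := by linarith
      have h4 : (i : ℝ) ≤ N := le_of_mul_le_mul_right h3 hs
      exact_mod_cast h4
  obtain ⟨I, hI⟩ : ∃ I : Set (ℤ × ℤ), I = {a | (Sq s a ∩ frontier K).Nonempty} := ⟨_, rfl⟩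
  have hIfin : I.Finite := by
    refine Set.Finite.subset ((Finset.Icc (-(N : ℤ)) N ×ˢ Finset.Icc (-(N : ℤ)) N).finite_toSet) ?_
    intro a ha
    rw [hI] at ha
    obtain ⟨y, ⟨y1, y2, y3, y4⟩, hy⟩ := ha
    have hyR := hKR y (hfK hy)
    rw [Finset.mem_coe, Finset.mem_product]
    exact ⟨hbd a.1 (y 0) ((coord_le y 0).trans hyR) y1 y2,
      hbd a.2 (y 1) ((coord_le y 1).trans hyR) y3 y4⟩
  refine ⟨⋃ a ∈ I, Sq s a, W, hIfin.isCompact_biUnion fun a _ => sq_compact s a, hW2, ?_,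
    hW3.le, ?_⟩
  · intro x hx
    simp only [mem_iUnion, exists_prop] at hx
    obtain ⟨a, ha, hx⟩ := hx
    rw [hI] at ha
    obtain ⟨y, hy1, hy2⟩ := ha
    apply hηW
    refine mem_cthickening_of_dist_le x y η _ hy2 ?_
    have := sq_dist s a x y hx hy1
    rw [hsdef] at this
    linarith
  · refine ⟨(Finset.Icc (-(N : ℤ)) N).image
        (fun i : ℤ => ((!₂[(i : ℝ) * s, -R], !₂[(i : ℝ) * s, R]) : E2 × E2)) ∪
      (Finset.Icc (-(N : ℤ)) N).image
        (fun i : ℤ => ((!₂[-R, (i : ℝ) * s], !₂[R, (i : ℝ) * s]) : E2 × E2)), ?_⟩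
    intro p hp
    have hpcl : p ∈ closure (K \ ⋃ a ∈ I, Sq s a) := frontier_subset_closure hp
    have hpK : p ∈ K := by
      have := closure_mono (sdiff_subset (s := K) (t := ⋃ a ∈ I, Sq s a)) hpcl
      rwa [hK.isClosed.closure_eq] at this
    have hpR := hKR p hpK
    have hp0 : |p 0| ≤ R := (coord_le p 0).trans hpR
    have hp1 : |p 1| ≤ R := (coord_le p 1).trans hpR
    simp only [mem_iUnion, exists_prop, Finset.mem_union, Finset.mem_image]
    by_cases h0 : ∃ i : ℤ, p 0 = i * s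
    · obtain ⟨i, hi⟩ := h0
      refine ⟨(!₂[(i : ℝ) * s, -R], !₂[(i : ℝ) * s, R]), Or.inl ⟨i, ?_, rfl⟩, ?_⟩
      · exact hbd i (p 0) hp0 hi.ge (by rw [hi]; nlinarith)
      · exact seg_mem R (i * s) hR (p 1) hp1 _ _ p ⟨rfl, rfl⟩ ⟨rfl, rfl⟩ ⟨hi, rfl⟩
    by_cases h1 : ∃ i : ℤ, p 1 = i * s
    · obtain ⟨i, hi⟩ := h1
      refine ⟨(!₂[-R, (i : ℝ) * s], !₂[R, (i : ℝ) * s]), Or.inr ⟨i, ?_, rfl⟩, ?_⟩
      · exact hbd i (p 1) hp1 hi.ge (by rw [hi]; nlinarith)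
      · exact seg_mem' R (i * s) hR (p 0) hp0 _ _ p ⟨rfl, rfl⟩ ⟨rfl, rfl⟩ ⟨hi, rfl⟩
    push Not at h0 h1
    exfalso
    obtain ⟨a1, a2⟩ := floor_bd s hs (p 0) h0
    obtain ⟨a3, a4⟩ := floor_bd s hs (p 1) h1
    obtain ⟨a, ha⟩ : ∃ a : ℤ × ℤ, a = (⌊p 0 / s⌋, ⌊p 1 / s⌋) := ⟨_, rfl⟩
    have hpO : p ∈ Oq s a := by rw [ha]; exact ⟨a1, a2, a3, a4⟩
    -- no point of `Oq s a` is in `K \ V` or all points are
    have hclaim : (Oq s a ∩ (K \ ⋃ a ∈ I, Sq s a)).Nonempty ∧ ¬ Oq s a ⊆ (K \ ⋃ a ∈ I, Sq s a) := by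
      constructor
      · exact mem_closure_iff.mp hpcl _ (oq_open s a) hpO
      · intro hsub
        have : p ∈ interior (K \ ⋃ a ∈ I, Sq s a) :=
          mem_interior.mpr ⟨_, hsub, oq_open s a, hpO⟩
        exact hp.2 this
    obtain ⟨⟨q, hqO, hqK, hqV⟩, hns⟩ := hclaim
    have haI : a ∉ I := by
      intro haI
      exact hqV (mem_biUnion haI (oq_sub_sq s a hqO))
    have hOV : ∀ x ∈ Oq s a, x ∉ ⋃ a ∈ I, Sq s a := by
      intro x hx hxV
      simp only [mem_iUnion, exists_prop] at hxV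
      obtain ⟨b, hb, hxb⟩ := hxV
      rw [oq_sq s hs a b x hx hxb] at haI
      exact haI hb
    have hOfr : ∀ x ∈ Oq s a, x ∉ frontier K := by
      intro x hx hxf
      apply haI
      rw [hI]
      exact ⟨x, oq_sub_sq s a hx, hxf⟩
    -- connectedness
    apply hns
    intro x hx
    refine ⟨?_, hOV x hx⟩
    by_contra hxK
    have hqi : q ∈ interior K := by
      by_contra hq
      exact hOfr q hqO ⟨subset_closure hqK, hq⟩
    obtain ⟨y, hy1, hy2, hy3⟩ := oq_preconn s a (interior K) Kᶜ isOpen_interior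
      hK.isClosed.isOpen_compl (fun y hy => by
        by_cases hyK : y ∈ K
        · left
          by_contra hq
          exact hOfr y hy ⟨subset_closure hyK, hq⟩
        · right; exact hyK) ⟨q, hqO, hqi⟩ ⟨x, hx, hxK⟩
    exact hy3 (interior_subset hy2)

end Pool.Agent.R244.CP
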