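import Pool.Agent.R244.CP.Stm

/-! Piece KEYB of project CP. -/

namespace Pool.Agent.R244.CP

open MeasureTheory Set Metric
open scoped NNReal ENNReal Classical

theorem t_KEYB (hN : S_NCFIN) (hS : S_SUBG) (hP : S_PL) : S_KEYB := by
  intro V W hV hW hVW hWf ε hε hvol
  obtain ⟨ρ, hρ, hth⟩ := hV.exists_cthickening_subset_open hW hVW
  obtain ⟨J, hJne, hJn, hJ⟩ := hN W hW hWf ε hε hvol ρ hρ
  refine ⟨J, hJne, hJn, fun x hx hc => ?_⟩
  obtain ⟨v, hv⟩ := hc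
  obtain ⟨hconv, hLip⟩ := hP J (2 * ε) hJne hJn
  obtain ⟨hlow, hvn⟩ := hS (pl J) (2 * ε) hconv hLip x v hv
  refine hJ x v ρ le_rfl ((closedBall_subset_cthickening hx ρ).trans hth) hvn ?_
  intro z _
  have h0 : 0 ≤ ρ ^ 2 / 2 := by positivity
  exact ⟨by have := hlow z; linarith, by have := hv z; linarith⟩

end Pool.Agent.R244.CP
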