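import Pool.Agent.R244.CP.Stm

/-!
Project CP (helper244), piece LIM: ultrafilter limit.
-/

namespace Pool.Agent.R244.CP

open MeasureTheory Set Metric
open scoped NNReal ENNReal Classical

theorem lim_unif {ε : ℝ} (hε : 0 < ε) (U : Ultrafilter ℕ) (h : ℕ → E2 → ℝ) (g : E2 → ℝ)
    (hh : ∀ n, Lip (2 * ε) (h n)) (hg : Lip (2 * ε) g)
    (hlim : ∀ x, Filter.Tendsto (fun n => h n x) U (nhds (g x))) (R δ : ℝ) (hδ : 0 < δ) :
    ∀ᶠ n in (U : Filter ℕ), ∀ z : E2, ‖z‖ ≤ R → |h n z - g z| ≤ δ := by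
  have he : 0 < δ / (8 * ε + 1) := by positivity
  obtain ⟨t, _, htf, htc⟩ := (isCompact_closedBall (0 : E2) R).finite_cover_balls he
  have h1 : ∀ᶠ n in (U : Filter ℕ), ∀ x ∈ t, |h n x - g x| < δ / 2 := by
    rw [Filter.eventually_all_finite htf]
    intro x _
    have h2 := (Metric.tendsto_nhds.1 (hlim x)) (δ / 2) (by positivity)
    refine h2.mono fun n hn => ?_
    rwa [Real.dist_eq] at hn
  refine h1.mono fun n hn z hz => ?_
  have hz' : z ∈ closedBall (0 : E2) R := by simpa using hz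
  obtain ⟨x, hx, hzx⟩ := mem_iUnion₂.1 (htc hz')
  rw [mem_ball, dist_eq_norm] at hzx
  have h3 := hh n z x
  have h4 := hg x z
  have h5 := hn x hx
  rw [norm_sub_rev] at h4
  have h6 : 2 * ε * ‖z - x‖ ≤ δ / 4 := by
    have h7 : 2 * ε * ‖z - x‖ ≤ 2 * ε * (δ / (8 * ε + 1)) :=
      mul_le_mul_of_nonneg_left hzx.le (by positivity)
    have h8 : 2 * ε * (δ / (8 * ε + 1)) ≤ δ / 4 := by
      rw [mul_div_assoc', div_le_iff₀ (by positivity)]
      nlinarith
    linarith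
  have h9 : h n z - g z = (h n z - h n x) + (h n x - g x) + (g x - g z) := by ring
  rw [h9]
  calc |(h n z - h n x) + (h n x - g x) + (g x - g z)|
      ≤ |h n z - h n x| + |h n x - g x| + |g x - g z| := abs_add_three _ _ _
    _ ≤ δ := by linarith

theorem t_LIM (hN : S_NCFIN) (hS : S_SUBG) (hP : S_PL) : S_LIM := by
  intro W hW hWfin ε hε hsmall
  have h1 := fun n : ℕ => hN W hW hWfin ε hε hsmall (1 / ((n : ℝ) + 1)) (by positivity)
  choose J hJne hJn hJ using h1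
  have hpl := fun n : ℕ => hP (J n) (2 * ε) (hJne n) (hJn n)
  obtain ⟨h, hdef⟩ : ∃ h : ℕ → E2 → ℝ, h = fun n x => pl (J n) x - pl (J n) 0 := ⟨_, rfl⟩
  have hLip : ∀ n, Lip (2 * ε) (h n) := by
    intro n x y
    rw [hdef]
    simp only [sub_sub_sub_cancel_right]
    exact (hpl n).2 x y
  have hconv : ∀ n, ConvexOn ℝ univ (h n) := by
    intro n
    rw [hdef]
    have := (hpl n).1.add_const (-(pl (J n) 0))
    exact this
  have hbd : ∀ x n, h n x ∈ Icc (-(2 * ε * ‖x‖)) (2 * ε * ‖x‖) := by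
    intro x n
    have h2 := hLip n x 0
    have h3 : h n 0 = 0 := by rw [hdef]; simp
    rw [h3, sub_zero, sub_zero, abs_le] at h2
    exact h2
  obtain ⟨U, hU⟩ : ∃ U : Ultrafilter ℕ, U = Filter.hyperfilter ℕ := ⟨_, rfl⟩
  have hUtop : (U : Filter ℕ) ≤ Filter.atTop := by rw [hU]; exact Nat.hyperfilter_le_atTop
  have hlim : ∀ x : E2, ∃ y, Filter.Tendsto (fun n => h n x) U (nhds y) := by
    intro x
    obtain ⟨y, _, hy2⟩ := (isCompact_Icc (a := (-(2 * ε * ‖x‖))) (b := 2 * ε * ‖x‖)).ultrafilter_le_nhds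
      (U.map fun n => h n x) (by
        rw [Filter.le_principal_iff]
        exact Filter.mem_map.2 (Filter.Eventually.of_forall fun n => hbd x n))
    exact ⟨y, hy2⟩
  choose g hg using hlim
  have hgLip : Lip (2 * ε) g := by
    intro x y
    have h2 : Filter.Tendsto (fun n => |h n x - h n y|) U (nhds |g x - g y|) :=
      ((hg x).sub (hg y)).abs
    exact le_of_tendsto' h2 fun n => hLip n x y
  have hgconv : ConvexOn ℝ univ g := by
    refine ⟨convex_univ, fun x _ y _ a b ha hb hab => ?_⟩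
    have h2 : Filter.Tendsto (fun n => a • h n x + b • h n y) U (nhds (a • g x + b • g y)) :=
      ((hg x).const_smul a).add ((hg y).const_smul b)
    exact le_of_tendsto_of_tendsto' (hg _) h2 fun n =>
      (hconv n).2 (mem_univ x) (mem_univ y) ha hb hab
  refine ⟨g, hgconv, hgLip, fun x₀ hx₀ hc => ?_⟩
  obtain ⟨v, hv⟩ := hc
  obtain ⟨hlow, hvn⟩ := hS g (2 * ε) hgconv hgLip x₀ v hv
  obtain ⟨r0, hr0, hr0W⟩ := Metric.isOpen_iff.1 hW x₀ hx₀
  obtain ⟨r, hr⟩ : ∃ r : ℝ, r = min (r0 / 2) 1 := ⟨_, rfl⟩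
  have hrpos : 0 < r := by rw [hr]; positivity
  have hr1 : r ≤ 1 := by rw [hr]; exact min_le_right _ _
  have hrW : closedBall x₀ r ⊆ W := by
    refine (closedBall_subset_ball ?_).trans hr0W
    have : r ≤ r0 / 2 := by rw [hr]; exact min_le_left _ _
    linarith
  have hu := lim_unif hε U h g hLip hgLip hg (‖x₀‖ + 4 * ε + 1) (r ^ 2 / 4) (by positivity)
  have hn : ∀ᶠ n : ℕ in (U : Filter ℕ), 1 / ((n : ℝ) + 1) < r := by
    have h2 := (tendsto_one_div_add_atTop_nhds_zero_nat (𝕜 := ℝ)).eventually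
      (gt_mem_nhds hrpos)
    exact h2.filter_mono hUtop
  obtain ⟨n, hn1, hn2⟩ := (hu.and hn).exists
  refine hJ n x₀ v r hn2.le hrW hvn fun z hz => ?_
  have hz1 : ‖z‖ ≤ ‖x₀‖ + 4 * ε + 1 := by
    have : ‖z‖ ≤ ‖x₀‖ + ‖z - x₀‖ := by
      calc ‖z‖ = ‖x₀ + (z - x₀)‖ := by congr 1; abel
        _ ≤ _ := norm_add_le _ _
    linarith
  have k1 := abs_le.1 (hn1 z hz1)
  have k2 := abs_le.1 (hn1 x₀ (by linarith))
  have k3 := hlow z
  have k4 := hv z
  rw [hdef] at k1 k2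
  simp only at k1 k2
  constructor
  · linarith [k1.1, k1.2, k2.1, k2.2]
  · linarith [k1.1, k1.2, k2.1, k2.2]

end Pool.Agent.R244.CP
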