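import Pool.Agent.R244.CP.Stm

namespace Pool.Agent.R244.CP

open MeasureTheory Set Metric
open scoped NNReal ENNReal Classical

theorem t_MEAS : S_MEAS := by
  intro F hF A
  have h0 : (volume : Measure E2) =
      (Measure.addHaarScalarFactor (volume : Measure E2)
        (Measure.hausdorffMeasure (Module.finrank ℝ E2) : Measure E2)) •
        (Measure.hausdorffMeasure (Module.finrank ℝ E2) : Measure E2) :=
    Measure.isAddLeftInvariant_eq_smul _ _
  have h1 := hF.hausdorffMeasure_image_le (d := (Module.finrank ℝ E2 : ℝ)) (by positivity) A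
  simp only [ENNReal.coe_one, ENNReal.one_rpow, one_mul] at h1
  rw [h0]
  simp only [Measure.smul_apply]
  gcongr

end Pool.Agent.R244.CP
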