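import Pool.Agent.R244.CP.Stm

/-! Piece NCFIN of project CP. -/

namespace Pool.Agent.R244.CP

open MeasureTheory Set Metric
open scoped NNReal ENNReal Classical

theorem ncfin_aux (T r i : ℝ) (hr : 0 < r) (_hT : 0 ≤ T) (h1 : i ≤ T ^ 2 / 2 + r ^ 2)
    (h2 : T ^ 2 - T * r ≤ i) : T ≤ 3 * r := by
  by_contra h
  push Not at h
  nlinarith [mul_pos hr hr, mul_pos (sub_pos.mpr h) hr, mul_pos (sub_pos.mpr h) (sub_pos.mpr h)]

theorem t_NCFIN (hSD : S_SD) (hX : S_GRIDX) (hQ : S_GRIDQ) : S_NCFIN := by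
  intro W hW hWf ε hε hvol ρ hρ
  have hτ : 0 < min (ρ / 10) (ε / 4) := lt_min (by positivity) (by positivity)
  obtain ⟨X, hXc, hXg⟩ := hX W hW hWf (ρ / 10) (by positivity)
  obtain ⟨Q, hQne, hQn, hQc, hQg⟩ := hQ ε (min (ρ / 10) (ε / 4)) hτ
    (by have := min_le_right (ρ / 10) (ε / 4); linarith)
  have hτρ := min_le_left (ρ / 10) (ε / 4)
  set τ := min (ρ / 10) (ε / 4) with hτdef
  rcases X.eq_empty_or_nonempty with rfl | hXne
  · refine ⟨{(0, 0)}, by simp, by simpa using hε.le, ?_⟩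
    intro x₀ v r hr hball hv H
    have h1 := hXg x₀ r (by linarith) hball
    have hr0 : 0 < r := by linarith
    simp only [Finset.filter_empty, Finset.card_empty, Nat.cast_zero, mul_zero] at h1
    nlinarith [mul_pos hr0 hr0]
  · obtain ⟨a, ha⟩ := hSD X Q hXne hQne
    set φ : E2 → ℝ := fun q => X.sup' hXne (fun x => inner ℝ q x - a x) with hφdef
    have hφ1 : ∀ q, ∀ x ∈ X, inner ℝ q x - a x ≤ φ q :=
      fun q x hx => Finset.le_sup' (fun x => inner ℝ q x - a x) hx
    refine ⟨Q.image (fun q => (q, φ q)), hQne.image _, ?_, ?_⟩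
    · intro j hj
      obtain ⟨q, hq, rfl⟩ := Finset.mem_image.mp hj
      exact hQn q hq
    intro x₀ v r hr hball hv H
    have hr0 : 0 < r := by linarith
    set J : Finset (E2 × ℝ) := Q.image (fun q => (q, φ q)) with hJ
    have hJne : J.Nonempty := hQne.image _
    set A : Finset E2 := X.filter (fun x => dist x x₀ ≤ r) with hA
    have hAX : A ⊆ X := Finset.filter_subset _ _
    have key : Q.filter (fun q => ∃ x ∈ A, ∀ x' ∈ X,
        inner ℝ q x' - a x' ≤ inner ℝ q x - a x) ⊆ Q.filter (fun q => dist q v ≤ 3 * r) := by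
      intro q hq
      rw [Finset.mem_filter] at hq ⊢
      obtain ⟨hqQ, x, hxA, hx⟩ := hq
      refine ⟨hqQ, ?_⟩
      have hxX : x ∈ X := hAX hxA
      have hxd : dist x x₀ ≤ r := (Finset.mem_filter.mp hxA).2
      rw [dist_eq_norm] at hxd ⊢
      have hφq : φ q = inner ℝ q x - a x :=
        le_antisymm (Finset.sup'_le _ _ (fun x' hx' => hx x' hx')) (hφ1 q x hxX)
      have e1 : pl J x ≤ a x := by
        refine pl_le hJne fun j hj => ?_
        obtain ⟨q', hq', rfl⟩ := Finset.mem_image.mp hj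
        have := hφ1 q' x hxX
        simp only
        linarith
      have e2 : ∀ z : E2, inner ℝ q z - φ q ≤ pl J z := fun z =>
        le_pl (J := J) (j := (q, φ q)) (Finset.mem_image.mpr ⟨q, hqQ, rfl⟩) z
      have e3 : ∀ z : E2, pl J x + inner ℝ q (z - x) ≤ pl J z := by
        intro z
        have := e2 z
        rw [inner_sub_right]
        linarith
      have hn : ‖q - v‖ ≤ 4 * ε := by
        have := norm_sub_le q v
        have := hQn q hqQ
        linarith
      have hz := H (x₀ + (q - v)) (by rw [add_sub_cancel_left]; linarith)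
      have hx' := H x (by linarith)
      rw [add_sub_cancel_left] at hz
      have e4 := e3 (x₀ + (q - v))
      have e5 : x₀ + (q - v) - x = (q - v) - (x - x₀) := by abel
      rw [e5] at e4
      have e6 : inner ℝ (q - v) ((q - v) - (x - x₀)) ≤ ‖q - v‖ ^ 2 / 2 + r ^ 2 := by
        have t1 := hz.2
        have t2 := hx'.1
        have t3 : inner ℝ (q - v) ((q - v) - (x - x₀)) =
          inner ℝ q ((q - v) - (x - x₀)) - (inner ℝ v (q - v) - inner ℝ v (x - x₀)) := by
          rw [inner_sub_left, inner_sub_right v]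
        rw [t3]
        linarith
      have e7 : ‖q - v‖ ^ 2 - ‖q - v‖ * r ≤ inner ℝ (q - v) ((q - v) - (x - x₀)) := by
        rw [inner_sub_right, real_inner_self_eq_norm_sq]
        have t1 := real_inner_le_norm (q - v) (x - x₀)
        have t2 : ‖q - v‖ * ‖x - x₀‖ ≤ ‖q - v‖ * r :=
          mul_le_mul_of_nonneg_left hxd (norm_nonneg _)
        linarith
      exact ncfin_aux _ _ _ hr0 (norm_nonneg _) e6 e7
    have c1 := hXg x₀ r (by linarith) hball
    have c2 := ha A hAX
    have c3 := hQg v r (by linarith)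
    have c4 : ((Q.filter (fun q => ∃ x ∈ A, ∀ x' ∈ X,
        inner ℝ q x' - a x' ≤ inner ℝ q x - a x)).card : ℝ) ≤
        ((Q.filter (fun q => dist q v ≤ 3 * r)).card : ℝ) :=
      Nat.cast_le.mpr (Finset.card_le_card key)
    have hW0 : 0 ≤ (volume W).toReal := ENNReal.toReal_nonneg
    generalize ((Q.filter (fun q => ∃ x ∈ A, ∀ x' ∈ X,
        inner ℝ q x' - a x' ≤ inner ℝ q x - a x)).card : ℝ) = n1 at c2 c4
    generalize ((Q.filter (fun q => dist q v ≤ 3 * r)).card : ℝ) = n2 at c3 c4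
    have hXn : (0 : ℝ) ≤ (X.card : ℝ) := Nat.cast_nonneg _
    have hQn' : (0 : ℝ) ≤ (Q.card : ℝ) := Nat.cast_nonneg _
    have hAn : (0 : ℝ) ≤ (A.card : ℝ) := Nat.cast_nonneg _
    generalize (X.card : ℝ) = cX at *
    generalize (Q.card : ℝ) = cQ at *
    generalize (A.card : ℝ) = cA at *
    generalize (volume W).toReal = w at *
    have s0 : 0 < ρ / 10 := by positivity
    generalize ρ / 10 = s at *
    have d1 : (4 * ε ^ 2) * r ^ 2 ≤ (τ ^ 2 * cQ) * (s ^ 2 * cA) :=
      mul_le_mul hQc c1 (by positivity) (by positivity)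
    have d2 : (τ ^ 2 * cQ) * (s ^ 2 * cA) ≤ (τ ^ 2 * s ^ 2) * (cX * n2) := by
      have : (τ ^ 2 * cQ) * (s ^ 2 * cA) = (τ ^ 2 * s ^ 2) * (cQ * cA) := by ring
      rw [this]
      refine mul_le_mul_of_nonneg_left (c2.trans ?_) (by positivity)
      exact mul_le_mul_of_nonneg_left c4 hXn
    have d3 : (τ ^ 2 * s ^ 2) * (cX * n2) ≤ w * (38 * r ^ 2) := by
      have : (τ ^ 2 * s ^ 2) * (cX * n2) = (cX * s ^ 2) * (τ ^ 2 * n2) := by ring
      rw [this]
      have h38 : 0 ≤ 38 * r ^ 2 := by positivity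
      exact (mul_le_mul_of_nonneg_left c3 (by positivity)).trans
        (mul_le_mul_of_nonneg_right hXc h38)
    have d4 : (4 * ε ^ 2) * r ^ 2 ≤ (38 * w) * r ^ 2 := by linarith
    have d5 : 4 * ε ^ 2 ≤ 38 * w := le_of_mul_le_mul_right d4 (by positivity)
    nlinarith [mul_pos hε hε]

end Pool.Agent.R244.CP
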