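import Pool.Agent.R244.CP.Stm

/-!
CP-POLY (MP_123306_an): the polyhedral collapse map.
-/

namespace Pool.Agent.R244.CP

open MeasureTheory Set Metric
open scoped NNReal ENNReal

theorem t_POLY (hP : S_PROX) (hL : S_PL) : S_POLY := by
  intro J L hJ hL0 hJL
  obtain ⟨hconv, hlip⟩ := hL J L hJ hJL
  obtain ⟨k, F, Z, hk, hF, hcol⟩ := hP (pl J) L hL0 hconv hlip
  refine ⟨fun j => j.2 - ‖j.1‖ ^ 2 / 2, F, Z, hcol, fun p j hj hmax => ?_⟩
  rw [hF]
  intro p'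
  have e1 : p + j.1 - p = j.1 := by abel
  rw [e1]
  have h1 : k p ≤ inner ℝ j.1 p - (j.2 - ‖j.1‖ ^ 2 / 2) := by
    refine (hk p).2 ?_
    rintro _ ⟨y, rfl⟩
    obtain ⟨i, hi, hpl⟩ := exists_pl hJ (p + y)
    have h2 := hmax i hi
    simp only at h2 ⊢
    have h3 : 0 ≤ ‖i.1 - y‖ ^ 2 := sq_nonneg _
    rw [norm_sub_sq_real] at h3
    rw [hpl, inner_add_right]
    linarith
  have h2 : inner ℝ j.1 p' - (j.2 - ‖j.1‖ ^ 2 / 2) ≤ k p' := by
    refine le_trans ?_ ((hk p').1 ⟨j.1, rfl⟩)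
    have h3 := le_pl hj (p' + j.1)
    rw [inner_add_right, real_inner_self_eq_norm_sq] at h3
    simp only
    linarith
  rw [inner_sub_right]
  linarith

end Pool.Agent.R244.CP
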