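import Pool.Agent.R244.CP.Stm

/-! # PROX: the collapse map as a proximal map -/

namespace Pool.Agent.R244.CP

open MeasureTheory Set Metric Filter
open scoped NNReal ENNReal Topology

namespace ProxAux

theorem lip_cont {L : ℝ} {h : E2 → ℝ} (hL : 0 ≤ L) (hh : Lip L h) : LipschitzWith ⟨L, hL⟩ h := by
  apply LipschitzWith.of_dist_le_mul
  intro x y
  rw [Real.dist_eq, dist_eq_norm]
  exact hh x y

theorem sq_add (u v : E2) : ‖u + v‖ ^ 2 = ‖u‖ ^ 2 + 2 * inner ℝ u v + ‖v‖ ^ 2 := by
  rw [norm_add_sq_real]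

theorem inner_le (u v : E2) : inner ℝ u v ≤ ‖u‖ * ‖v‖ := real_inner_le_norm u v

/-- the minimiser is characterised by the subgradient inequality -/
theorem subgrad_of_min {k : E2 → ℝ} (hk : ConvexOn ℝ univ k) {x p : E2}
    (hp : ∀ p', k p + ‖x - p‖ ^ 2 / 2 ≤ k p' + ‖x - p'‖ ^ 2 / 2) (p' : E2) :
    k p + inner ℝ (x - p) (p' - p) ≤ k p' := by
  by_contra hcon
  push Not at hcon
  set D := k p + inner ℝ (x - p) (p' - p) - k p' with hD
  have hD0 : 0 < D := by linarith
  set S := ‖p' - p‖ ^ 2 with hS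
  have hS0 : 0 ≤ S := sq_nonneg _
  obtain ⟨t, ht0, ht1, htS⟩ : ∃ t : ℝ, 0 < t ∧ t ≤ 1 ∧ t * S < D := by
    refine ⟨min 1 (D / (S + 1) / 2), by positivity, min_le_left _ _, ?_⟩
    calc min 1 (D / (S + 1) / 2) * S ≤ (D / (S + 1) / 2) * S :=
          mul_le_mul_of_nonneg_right (min_le_right _ _) hS0
      _ = D * (S / (S + 1)) / 2 := by ring
      _ ≤ D * 1 / 2 := by
          have : S / (S + 1) ≤ 1 := by
            rw [div_le_one (by linarith)]
            linarith
          nlinarith
      _ < D := by linarith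
  have h1 := hp ((1 - t) • p + t • p')
  have h2 := hk.2 (mem_univ p) (mem_univ p') (by linarith : (0:ℝ) ≤ 1 - t) ht0.le (by ring)
  have h3 : x - ((1 - t) • p + t • p') = (x - p) + (-t) • (p' - p) := by module
  rw [h3, sq_add, norm_smul, inner_smul_right, Real.norm_eq_abs, mul_pow, sq_abs] at h1
  simp only [smul_eq_mul] at h2
  rw [← hS] at h1
  have h4 : t * (k p + inner ℝ (x - p) (p' - p) - k p') ≤ t * (t * S / 2) := by nlinarith
  have h5 := le_of_mul_le_mul_left h4 ht0
  rw [← hD] at h5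
  nlinarith

theorem mono {k : E2 → ℝ} {x x1 p p1 : E2}
    (h : ∀ p', k p + inner ℝ (x - p) (p' - p) ≤ k p')
    (h1 : ∀ p', k p1 + inner ℝ (x1 - p1) (p' - p1) ≤ k p') :
    ‖p - p1‖ ^ 2 ≤ inner ℝ (x - x1) (p - p1) := by
  have a := h p1
  have b := h1 p
  have e1 : inner ℝ (x - p) (p1 - p) = - inner ℝ (x - p) (p - p1) := by
    rw [← inner_neg_right, neg_sub]
  have e2 : inner ℝ (x - x1) (p - p1) =
      inner ℝ (x - p) (p - p1) - inner ℝ (x1 - p1) (p - p1) + ‖p - p1‖ ^ 2 := by
    rw [← real_inner_self_eq_norm_sq, ← inner_sub_left, ← inner_add_left]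
    congr 1
    abel
  rw [e1] at a
  linarith

theorem subgrad_unique {k : E2 → ℝ} {p q1 q2 : E2} (hd : DifferentiableAt ℝ k p)
    (h1 : ∀ p', k p + inner ℝ q1 (p' - p) ≤ k p') (h2 : ∀ p', k p + inner ℝ q2 (p' - p) ≤ k p') :
    q1 = q2 := by
  have key : ∀ q : E2, (∀ p', k p + inner ℝ q (p' - p) ≤ k p') →
      fderiv ℝ k p = innerSL ℝ q := by
    intro q hq
    have hm : IsLocalMin (fun p' => k p' - innerSL ℝ q p') p := by
      refine Filter.Eventually.of_forall fun p' => ?_
      have a := hq p'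
      rw [inner_sub_right] at a
      simp only [innerSL_apply_apply]
      linarith
    have hf := hm.fderiv_eq_zero
    have e : fderiv ℝ (fun p' => k p' - innerSL ℝ q p') p = fderiv ℝ k p - innerSL ℝ q := by
      rw [fderiv_fun_sub hd (innerSL ℝ q).differentiableAt]
      rw [ContinuousLinearMap.fderiv]
    rw [e] at hf
    exact sub_eq_zero.1 hf
  have e := (key q1 h1).symm.trans (key q2 h2)
  have e2 := congrArg (fun f : E2 →L[ℝ] ℝ => f (q1 - q2)) e
  simp only [innerSL_apply_apply] at e2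
  have e3 : inner ℝ (q1 - q2) (q1 - q2) = 0 := by
    rw [inner_sub_left]
    linarith
  rw [inner_self_eq_zero] at e3
  exact sub_eq_zero.1 e3

end ProxAux

open ProxAux

theorem t_PROX (hS : S_SUBG) : S_PROX := by
  intro h L hL hconv hlip
  have hcont : Continuous h := (lip_cont hL hlip).continuous
  -- the maximisers
  have hex : ∀ p : E2, ∃ y0 : E2, ∀ y : E2, h (p + y) - ‖y‖ ^ 2 / 2 ≤ h (p + y0) - ‖y0‖ ^ 2 / 2 := by
    intro p
    have hc : Continuous (fun y : E2 => h (p + y) - ‖y‖ ^ 2 / 2) := by fun_prop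
    refine hc.exists_forall_ge' (0 : E2) ?_
    filter_upwards [(tendsto_norm_cocompact_atTop (E := E2)).eventually_ge_atTop (2 * L)] with y hy
    have a := (abs_le.1 (hlip (p + y) p)).2
    rw [add_sub_cancel_left] at a
    simp only [add_zero, norm_zero]
    nlinarith [norm_nonneg y]
  choose y0 hy0 using hex
  set k : E2 → ℝ := fun p => h (p + y0 p) - ‖y0 p‖ ^ 2 / 2 with hk
  have hkge : ∀ p y : E2, h (p + y) - ‖y‖ ^ 2 / 2 ≤ k p := fun p y => hy0 p y
  have hklub : ∀ p : E2, IsLUB (range fun y : E2 => h (p + y) - ‖y‖ ^ 2 / 2) (k p) := by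
    intro p
    apply IsGreatest.isLUB
    refine ⟨⟨y0 p, rfl⟩, ?_⟩
    rintro _ ⟨y, rfl⟩
    exact hkge p y
  have hkconv : ConvexOn ℝ univ k := by
    refine ⟨convex_univ, fun p1 _ p2 _ a b ha hb hab => ?_⟩
    set p := a • p1 + b • p2 with hp
    have e : p + y0 p = a • (p1 + y0 p) + b • (p2 + y0 p) := by
      rw [smul_add, smul_add, hp]
      have : a • y0 (a • p1 + b • p2) + b • y0 (a • p1 + b • p2) = y0 (a • p1 + b • p2) := by
        rw [← add_smul, hab, one_smul]
      conv_lhs => rw [← this]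
      abel
    have c1 := hconv.2 (mem_univ (p1 + y0 p)) (mem_univ (p2 + y0 p)) ha hb hab
    have c2 := hkge p1 (y0 p)
    have c3 := hkge p2 (y0 p)
    rw [← e] at c1
    simp only [smul_eq_mul] at c1 ⊢
    have c4 : k p = h (p + y0 p) - ‖y0 p‖ ^ 2 / 2 := rfl
    rw [c4]
    have c5 := mul_le_mul_of_nonneg_left c2 ha
    have c6 := mul_le_mul_of_nonneg_left c3 hb
    have c7 : ‖y0 p‖ ^ 2 / 2 = a * (‖y0 p‖ ^ 2 / 2) + b * (‖y0 p‖ ^ 2 / 2) := by
      rw [← add_mul, hab, one_mul]
    linarith
  have hkhalf : ∀ p p' : E2, k p - k p' ≤ L * ‖p - p'‖ := by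
    intro p p'
    have a := hkge p' (y0 p)
    have b := (abs_le.1 (hlip (p + y0 p) (p' + y0 p))).2
    rw [add_sub_add_right_eq_sub] at b
    have c : k p = h (p + y0 p) - ‖y0 p‖ ^ 2 / 2 := rfl
    linarith
  have hklip : Lip L k := by
    intro p p'
    rw [abs_le]
    constructor
    · have := hkhalf p' p
      rw [norm_sub_rev] at this
      linarith
    · exact hkhalf p p'
  have hkcont : Continuous k := (lip_cont hL hklip).continuous
  -- contact points
  have hcontact : ∀ p z : E2, h z ≤ h (p + y0 p) + inner ℝ (y0 p) (z - (p + y0 p)) +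
      ‖z - (p + y0 p)‖ ^ 2 / 2 := by
    intro p z
    have a := hkge p (z - p)
    have c : k p = h (p + y0 p) - ‖y0 p‖ ^ 2 / 2 := rfl
    rw [add_sub_cancel, c] at a
    have e : z - p = y0 p + (z - (p + y0 p)) := by abel
    rw [e, sq_add] at a
    linarith
  have hsub : ∀ p p' : E2, k p + inner ℝ (y0 p) (p' - p) ≤ k p' := by
    intro p p'
    have a := (hS h L hconv hlip (p + y0 p) (y0 p) (hcontact p)).1 (p' + y0 p)
    have b := hkge p' (y0 p)
    have c : k p = h (p + y0 p) - ‖y0 p‖ ^ 2 / 2 := rfl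
    rw [add_sub_add_right_eq_sub] at a
    linarith
  -- the proximal map
  have hexF : ∀ x : E2, ∃ p : E2, ∀ p' : E2, k p + inner ℝ (x - p) (p' - p) ≤ k p' := by
    intro x
    have hc : Continuous (fun p : E2 => k p + ‖x - p‖ ^ 2 / 2) := by fun_prop
    obtain ⟨p, hp⟩ := hc.exists_forall_le' x (by
      have hT : Tendsto (fun p : E2 => ‖x - p‖) (cocompact E2) atTop := by
        have h1 : Tendsto (fun p : E2 => x - p) (cocompact E2) (cocompact E2) :=
          (Homeomorph.subLeft x).isClosedEmbedding.tendsto_cocompact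
        exact (tendsto_norm_cocompact_atTop (E := E2)).comp h1
      filter_upwards [hT.eventually_ge_atTop (2 * L)] with p hp
      have a := hkhalf x p
      simp only [sub_self, norm_zero]
      nlinarith [norm_nonneg (x - p)])
    exact ⟨p, subgrad_of_min hkconv hp⟩
  choose F hF using hexF
  have hiff : ∀ x p : E2, F x = p ↔ ∀ p' : E2, k p + inner ℝ (x - p) (p' - p) ≤ k p' := by
    intro x p
    constructor
    · rintro rfl
      exact hF x
    · intro hp
      have a := mono (hF x) hp
      rw [sub_self, inner_zero_left] at a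
      have b : ‖F x - p‖ = 0 := by nlinarith [norm_nonneg (F x - p)]
      exact sub_eq_zero.1 (norm_eq_zero.1 b)
  refine ⟨k, F, {p | ¬ DifferentiableAt ℝ k p}, hklub, hiff, ?_, ?_, ?_, ?_, ?_, ?_⟩
  · apply LipschitzWith.of_dist_le_mul
    intro x x1
    rw [NNReal.coe_one, one_mul, dist_eq_norm, dist_eq_norm]
    have a := mono (hF x) (hF x1)
    have b := inner_le (x - x1) (F x - F x1)
    by_contra hcon
    push Not at hcon
    nlinarith [norm_nonneg (x - x1), norm_nonneg (F x - F x1)]
  · intro x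
    have a := hF x (F x + (x - F x))
    rw [add_sub_cancel_left, real_inner_self_eq_norm_sq] at a
    have b := hkhalf (F x + (x - F x)) (F x)
    rw [add_sub_cancel_left] at b
    rw [norm_sub_rev]
    by_contra hcon
    push Not at hcon
    nlinarith [norm_nonneg (x - F x)]
  · intro p
    refine ⟨p + y0 p, (hiff _ _).2 fun p' => ?_⟩
    rw [add_sub_cancel_left]
    exact hsub p p'
  · have := (lip_cont hL hklip).ae_differentiableAt (μ := (volume : Measure E2))
    exact this
  · intro x y hxy hZ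
    have hd : DifferentiableAt ℝ k (F x) := by
      by_contra hcon
      exact hZ hcon
    have a := hF x
    have b := hF y
    rw [← hxy] at b
    have e := subgrad_unique hd a b
    exact sub_left_injective e
  · intro x hZ
    have hd : DifferentiableAt ℝ k (F x) := by
      by_contra hcon
      exact hZ hcon
    have e := subgrad_unique hd (hF x) (hsub (F x))
    have e2 : F x + y0 (F x) = x := by
      rw [← e]; abel
    refine ⟨y0 (F x), fun z => ?_⟩
    have := hcontact (F x) z
    rwa [e2] at this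

end Pool.Agent.R244.CP
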