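import Pool.Agent.R244.CP.Stm

/-!
# CP-PSET: polygon calculus (helper179)
-/

set_option autoImplicit false

namespace Pool.Agent.R244.CP

open MeasureTheory Set Metric

namespace PSET

/-- covered by finitely many segments -/
def Cov (A : Set E2) : Prop := ∃ S : Finset (E2 × E2), A ⊆ ⋃ s ∈ S, segment ℝ s.1 s.2

theorem Cov.mono {A B : Set E2} (h : Cov B) (hAB : A ⊆ B) : Cov A := by
  obtain ⟨S, hS⟩ := h
  exact ⟨S, hAB.trans hS⟩

theorem Cov.union {A B : Set E2} (hA : Cov A) (hB : Cov B) : Cov (A ∪ B) := by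
  classical
  obtain ⟨S, hS⟩ := hA
  obtain ⟨T, hT⟩ := hB
  refine ⟨S ∪ T, ?_⟩
  rintro x (hx | hx)
  · obtain ⟨s, hs, hxs⟩ := mem_iUnion₂.1 (hS hx)
    exact mem_iUnion₂.2 ⟨s, Finset.mem_union_left _ hs, hxs⟩
  · obtain ⟨s, hs, hxs⟩ := mem_iUnion₂.1 (hT hx)
    exact mem_iUnion₂.2 ⟨s, Finset.mem_union_right _ hs, hxs⟩

theorem Cov.empty : Cov ∅ := ⟨∅, empty_subset _⟩

theorem isPolygon_empty : IsPolygon (∅ : Set E2) := by
  unfold IsPolygon
  rw [frontier_empty]
  exact Cov.empty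

theorem isPolygon_union {A B : Set E2} (hA : IsPolygon A) (hB : IsPolygon B) :
    IsPolygon (A ∪ B) := by
  have h := Cov.union hA hB
  refine h.mono ((frontier_union_subset A B).trans ?_)
  rintro x (⟨hx, -⟩ | ⟨-, hx⟩)
  · exact Or.inl hx
  · exact Or.inr hx

theorem isPolygon_translate {D : Set E2} (hD : IsPolygon D) (q : E2) :
    IsPolygon {p : E2 | p + q ∈ D} := by
  classical
  obtain ⟨S, hS⟩ := hD
  refine ⟨S.image (fun s => (s.1 - q, s.2 - q)), ?_⟩
  intro p hp
  have h1 : {p : E2 | p + q ∈ D} = (Homeomorph.addRight q) ⁻¹' D := rfl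
  rw [h1, ← Homeomorph.preimage_frontier] at hp
  have hp2 : p + q ∈ frontier D := hp
  obtain ⟨s, hs, hxs⟩ := mem_iUnion₂.1 (hS hp2)
  refine mem_iUnion₂.2 ⟨(s.1 - q, s.2 - q), Finset.mem_image_of_mem _ hs, ?_⟩
  have h2 : q + p ∈ segment ℝ (q + (s.1 - q)) (q + (s.2 - q)) := by
    rw [add_comm q p]
    simpa using hxs
  exact (mem_segment_translate ℝ q).1 h2

theorem inner_eq (x y : E2) : inner ℝ x y = x 0 * y 0 + x 1 * y 1 := by
  rw [PiLp.inner_apply, Fin.sum_univ_two]
  simp only [RCLike.inner_apply, conj_trivial]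
  ring

theorem normsq_eq (x : E2) : ‖x‖ ^ 2 = x 0 ^ 2 + x 1 ^ 2 := by
  rw [← real_inner_self_eq_norm_sq, inner_eq]
  ring

theorem cov_line {c : E2} (hc : c ≠ 0) (d R : ℝ) :
    Cov {p : E2 | ‖p‖ ≤ R ∧ inner ℝ c p = d} := by
  have hcn : 0 < ‖c‖ := norm_pos_iff.2 hc
  have hcs : ‖c‖ ^ 2 = c 0 ^ 2 + c 1 ^ 2 := normsq_eq c
  have hcs0 : 0 < ‖c‖ ^ 2 := by positivity
  set w : E2 := !₂[-c 1, c 0] with hw
  have hw0 : w 0 = -c 1 := by simp [hw]
  have hw1 : w 1 = c 0 := by simp [hw]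
  have hwn : ‖w‖ = ‖c‖ := by
    have : ‖w‖ ^ 2 = ‖c‖ ^ 2 := by
      rw [normsq_eq, hw0, hw1, hcs]; ring
    exact (pow_left_inj₀ (norm_nonneg _) (norm_nonneg _) (by norm_num)).1 this
  set B : ℝ := |R| / ‖c‖ + 1 with hB
  have hB0 : 0 < B := by
    have : 0 ≤ |R| / ‖c‖ := by positivity
    rw [hB]; linarith
  set p0 : E2 := (d / ‖c‖ ^ 2) • c with hp0
  refine ⟨{(p0 - B • w, p0 + B • w)}, ?_⟩
  rintro p ⟨hpR, hpd⟩
  refine mem_iUnion₂.2 ⟨(p0 - B • w, p0 + B • w), Finset.mem_singleton_self _, ?_⟩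
  set t : ℝ := inner ℝ w p / ‖c‖ ^ 2 with ht
  have htB : |t| ≤ B := by
    have h1 : |inner ℝ w p| ≤ ‖w‖ * ‖p‖ := abs_real_inner_le_norm w p
    rw [ht, abs_div, abs_of_pos hcs0, hB]
    have h2 : |inner ℝ w p| ≤ ‖c‖ * |R| := by
      refine h1.trans ?_
      rw [hwn]
      exact mul_le_mul_of_nonneg_left (hpR.trans (le_abs_self R)) hcn.le
    have h3 : |inner ℝ w p| / ‖c‖ ^ 2 ≤ (‖c‖ * |R|) / ‖c‖ ^ 2 := by gcongr
    have h4 : (‖c‖ * |R|) / ‖c‖ ^ 2 = |R| / ‖c‖ := by field_simp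
    linarith
  have hpt : p = p0 + t • w := by
    rw [inner_eq] at hpd
    have hin : inner ℝ w p = -c 1 * p 0 + c 0 * p 1 := by rw [inner_eq, hw0, hw1]
    ext i
    fin_cases i
    · simp only [Fin.zero_eta, Fin.isValue, PiLp.add_apply, PiLp.smul_apply, smul_eq_mul, hp0]
      rw [hw0, ht, hin]
      field_simp
      rw [hcs, ← hpd]; ring
    · simp only [Fin.mk_one, Fin.isValue, PiLp.add_apply, PiLp.smul_apply, smul_eq_mul, hp0]
      rw [hw1, ht, hin]
      field_simp
      rw [hcs, ← hpd]; ring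
  have h5 := abs_le.1 htB
  refine ⟨(B - t) / (2 * B), (B + t) / (2 * B), ?_, ?_, ?_, ?_⟩
  · apply div_nonneg <;> linarith
  · apply div_nonneg <;> linarith
  · field_simp; ring
  · rw [hpt]
    simp only
    have e1 : ((B - t) / (2 * B)) • (p0 - B • w) + ((B + t) / (2 * B)) • (p0 + B • w) =
      ((B - t) / (2 * B) + (B + t) / (2 * B)) • p0 +
        (((B + t) / (2 * B) - (B - t) / (2 * B)) * B) • w := by
      module
    rw [e1]
    have e2 : (B - t) / (2 * B) + (B + t) / (2 * B) = 1 := by field_simp; ring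
    have e3 : ((B + t) / (2 * B) - (B - t) / (2 * B)) * B = t := by field_simp; ring
    rw [e2, e3, one_smul]

theorem isPolygon_inter_half {A : Set E2} (hb : Bornology.IsBounded A) (hA : IsPolygon A)
    (c : E2) (d : ℝ) : IsPolygon (A ∩ {p : E2 | inner ℝ c p ≤ d}) := by
  have h1 : Cov (closure A ∩ frontier {p : E2 | inner ℝ c p ≤ d}) := by
    by_cases hc : c = 0
    · have : frontier {p : E2 | inner ℝ c p ≤ d} = ∅ := by
        subst hc
        by_cases hd : 0 ≤ d
        · have : {p : E2 | inner ℝ (0 : E2) p ≤ d} = univ := by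
            ext p; simp [hd]
          rw [this, frontier_univ]
        · have : {p : E2 | inner ℝ (0 : E2) p ≤ d} = ∅ := by
            ext p
            simp only [inner_zero_left, mem_setOf_eq, mem_empty_iff_false, iff_false]
            exact hd
          rw [this, frontier_empty]
      rw [this, inter_empty]
      exact Cov.empty
    · obtain ⟨R, hR⟩ := hb.closure.subset_closedBall (0 : E2)
      refine (cov_line hc d R).mono ?_
      rintro p ⟨hp1, hp2⟩
      refine ⟨by simpa using hR hp1, ?_⟩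
      have hcont : Continuous fun p : E2 => inner ℝ c p := continuous_const.inner continuous_id
      exact frontier_le_subset_eq hcont continuous_const hp2
  refine (Cov.union hA h1).mono ((frontier_inter_subset _ _).trans ?_)
  rintro x (⟨hx, -⟩ | hx)
  · exact Or.inl hx
  · exact Or.inr hx

theorem isPolygon_inter_halves {ι : Type*} (K : Finset ι) (c : ι → E2) (d : ι → ℝ) {A : Set E2}
    (hb : Bornology.IsBounded A) (hA : IsPolygon A) :
    IsPolygon (A ∩ {p : E2 | ∀ i ∈ K, inner ℝ (c i) p ≤ d i}) := by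
  classical
  induction K using Finset.induction_on with
  | empty => simpa using hA
  | insert i K hi ih =>
    have h1 : A ∩ {p : E2 | ∀ j ∈ insert i K, inner ℝ (c j) p ≤ d j} =
        (A ∩ {p : E2 | ∀ j ∈ K, inner ℝ (c j) p ≤ d j}) ∩ {p : E2 | inner ℝ (c i) p ≤ d i} := by
      ext p
      simp only [Finset.mem_insert, forall_eq_or_imp, mem_inter_iff, mem_setOf_eq]
      tauto
    rw [h1]
    exact isPolygon_inter_half (hb.subset inter_subset_left) ih _ _

theorem isPolygon_biUnion {ι : Type*} (K : Finset ι) (f : ι → Set E2)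
    (h : ∀ i ∈ K, IsPolygon (f i)) : IsPolygon {p : E2 | ∃ i ∈ K, p ∈ f i} := by
  classical
  induction K using Finset.induction_on with
  | empty => simpa using isPolygon_empty
  | insert i K hi ih =>
    have h1 : {p : E2 | ∃ j ∈ insert i K, p ∈ f j} = f i ∪ {p : E2 | ∃ j ∈ K, p ∈ f j} := by
      ext p
      simp
    rw [h1]
    exact isPolygon_union (h i (Finset.mem_insert_self i K))
      (ih fun j hj => h j (Finset.mem_insert_of_mem hj))

theorem bounded_translate {D : Set E2} (hD : Bornology.IsBounded D) (q : E2) :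
    Bornology.IsBounded {p : E2 | p + q ∈ D} := by
  obtain ⟨R, hR⟩ := hD.subset_closedBall (0 : E2)
  refine (isBounded_closedBall (x := (0 : E2)) (r := R + ‖q‖)).subset ?_
  intro p hp
  have h1 : ‖p + q‖ ≤ R := by simpa using hR hp
  rw [mem_closedBall_zero_iff]
  calc ‖p‖ = ‖(p + q) - q‖ := by simp
    _ ≤ ‖p + q‖ + ‖q‖ := norm_sub_le _ _
    _ ≤ R + ‖q‖ := by linarith

end PSET

open PSET in
theorem t_PSET : S_PSET := by
  intro D hb hD J b
  have h1 : {p : E2 | ∃ j ∈ J, p + j.1 ∈ D ∧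
      ∀ i ∈ J, inner ℝ i.1 p - b i ≤ inner ℝ j.1 p - b j} =
      {p : E2 | ∃ j ∈ J, p ∈ ({p : E2 | p + j.1 ∈ D} ∩
        {p : E2 | ∀ i ∈ J, inner ℝ (i.1 - j.1) p ≤ b i - b j})} := by
    ext p
    simp only [mem_setOf_eq, mem_inter_iff]
    refine exists_congr fun j => and_congr_right fun _ => and_congr_right fun _ =>
      forall_congr' fun i => forall_congr' fun _ => ?_
    rw [inner_sub_left]
    constructor <;> intro h <;> linarith
  rw [h1]
  refine isPolygon_biUnion J _ fun j _ => ?_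
  exact isPolygon_inter_halves J (fun i => i.1 - j.1) (fun i => b i - b j)
    (bounded_translate hb j.1) (isPolygon_translate hD j.1)

end Pool.Agent.R244.CP
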