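import Pool.Agent.R244.CP.Defs

namespace Pool.Agent.R244.CP

open MeasureTheory Set Metric
open scoped NNReal ENNReal Classical

/-- Discrete potentials (finite semi-discrete transport, Hall form). -/
def S_SD : Prop := ∀ X Q : Finset E2, X.Nonempty → Q.Nonempty →
  ∃ a : E2 → ℝ, ∀ A : Finset E2, A ⊆ X →
    (Q.card : ℝ) * (A.card : ℝ) ≤ (X.card : ℝ) *
      ((Q.filter (fun q => ∃ x ∈ A, ∀ x' ∈ X,
        inner ℝ q x' - a x' ≤ inner ℝ q x - a x)).card : ℝ)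

/-- Grid points of an open set of finite measure. -/
def S_GRIDX : Prop := ∀ W : Set E2, IsOpen W → volume W < ⊤ → ∀ s : ℝ, 0 < s →
  ∃ X : Finset E2, (X.card : ℝ) * s ^ 2 ≤ (volume W).toReal ∧
    ∀ (x₀ : E2) (r : ℝ), 10 * s ≤ r → closedBall x₀ r ⊆ W →
      r ^ 2 ≤ s ^ 2 * ((X.filter (fun x => dist x x₀ ≤ r)).card : ℝ)

/-- Grid of slopes. -/
def S_GRIDQ : Prop := ∀ ε τ : ℝ, 0 < τ → 4 * τ ≤ ε →
  ∃ Q : Finset E2, Q.Nonempty ∧ (∀ q ∈ Q, ‖q‖ ≤ 2 * ε) ∧ 4 * ε ^ 2 ≤ τ ^ 2 * (Q.card : ℝ) ∧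
    ∀ (v : E2) (r : ℝ), 10 * τ ≤ r →
      τ ^ 2 * ((Q.filter (fun q => dist q v ≤ 3 * r)).card : ℝ) ≤ 38 * r ^ 2

/-- Finite potentials without near contact points. -/
def S_NCFIN : Prop := ∀ W : Set E2, IsOpen W → volume W < ⊤ → ∀ ε : ℝ, 0 < ε →
  16 * (volume W).toReal ≤ ε ^ 2 → ∀ ρ : ℝ, 0 < ρ →
  ∃ J : Finset (E2 × ℝ), J.Nonempty ∧ (∀ j ∈ J, ‖j.1‖ ≤ 2 * ε) ∧
    ∀ (x₀ v : E2) (r : ℝ), ρ ≤ r → closedBall x₀ r ⊆ W → ‖v‖ ≤ 2 * ε →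
      ¬ (∀ z : E2, ‖z - x₀‖ ≤ 4 * ε + r →
        pl J x₀ + inner ℝ v (z - x₀) - r ^ 2 / 2 ≤ pl J z ∧
        pl J z ≤ pl J x₀ + inner ℝ v (z - x₀) + ‖z - x₀‖ ^ 2 / 2 + r ^ 2 / 2)

/-- A paraboloid touching a convex Lipschitz function from above has subgradient slope. -/
def S_SUBG : Prop := ∀ (h : E2 → ℝ) (L : ℝ), ConvexOn ℝ univ h → Lip L h →
  ∀ x v : E2, (∀ z : E2, h z ≤ h x + inner ℝ v (z - x) + ‖z - x‖ ^ 2 / 2) →
    (∀ z : E2, h x + inner ℝ v (z - x) ≤ h z) ∧ ‖v‖ ≤ L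

/-- Polyhedral functions are convex and Lipschitz. -/
def S_PL : Prop := ∀ (J : Finset (E2 × ℝ)) (L : ℝ), J.Nonempty → (∀ j ∈ J, ‖j.1‖ ≤ L) →
  ConvexOn ℝ univ (pl J) ∧ Lip L (pl J)

/-- The infinite version: a convex Lipschitz function without contact points in `W`. -/
def S_LIM : Prop := ∀ W : Set E2, IsOpen W → volume W < ⊤ → ∀ ε : ℝ, 0 < ε →
  16 * (volume W).toReal ≤ ε ^ 2 →
  ∃ h : E2 → ℝ, ConvexOn ℝ univ h ∧ Lip (2 * ε) h ∧ ∀ x ∈ W, ¬ Contact h x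

/-- The polyhedral version for a compact subset of `W`. -/
def S_KEYB : Prop := ∀ V W : Set E2, IsCompact V → IsOpen W → V ⊆ W → volume W < ⊤ →
  ∀ ε : ℝ, 0 < ε → 16 * (volume W).toReal ≤ ε ^ 2 →
  ∃ J : Finset (E2 × ℝ), J.Nonempty ∧ (∀ j ∈ J, ‖j.1‖ ≤ 2 * ε) ∧
    ∀ x ∈ V, ¬ Contact (pl J) x

/-- The collapse map as a proximal map. -/
def S_PROX : Prop := ∀ (h : E2 → ℝ) (L : ℝ), 0 ≤ L → ConvexOn ℝ univ h → Lip L h →
  ∃ (k : E2 → ℝ) (F : E2 → E2) (Z : Set E2),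
    (∀ p : E2, IsLUB (range fun y : E2 => h (p + y) - ‖y‖ ^ 2 / 2) (k p)) ∧
    (∀ x p : E2, F x = p ↔ ∀ p' : E2, k p + inner ℝ (x - p) (p' - p) ≤ k p') ∧
    Collapse h L F Z

/-- The polyhedral collapse map. -/
def S_POLY : Prop := ∀ (J : Finset (E2 × ℝ)) (L : ℝ), J.Nonempty → 0 ≤ L →
  (∀ j ∈ J, ‖j.1‖ ≤ L) →
  ∃ (b : E2 × ℝ → ℝ) (F : E2 → E2) (Z : Set E2), Collapse (pl J) L F Z ∧
    (∀ p : E2, ∀ j ∈ J, (∀ i ∈ J, inner ℝ i.1 p - b i ≤ inner ℝ j.1 p - b j) →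
      F (p + j.1) = p)

/-- The image set of the polyhedral collapse map is a polygon. -/
def S_PSET : Prop := ∀ (D : Set E2), Bornology.IsBounded D → IsPolygon D →
  ∀ (J : Finset (E2 × ℝ)) (b : E2 × ℝ → ℝ),
    IsPolygon {p : E2 | ∃ j ∈ J, p + j.1 ∈ D ∧
      ∀ i ∈ J, inner ℝ i.1 p - b i ≤ inner ℝ j.1 p - b j}

/-- Jordan measurable compact sets are polygons outside a small compact set. -/
def S_JORDAN : Prop := ∀ K : Set E2, IsCompact K → volume (frontier K) = 0 →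
  ∀ δ : ℝ, 0 < δ → ∃ V W : Set E2, IsCompact V ∧ IsOpen W ∧ V ⊆ W ∧
    volume W ≤ ENNReal.ofReal δ ∧ IsPolygon (K \ V)

/-- Approximation of measurable sets by compact Jordan measurable sets. -/
def S_APPROX : Prop := ∀ E : Set E2, NullMeasurableSet E volume → volume E < ⊤ →
  ∀ δ : ℝ, 0 < δ → ∃ G : Set E2, IsCompact G ∧ volume (frontier G) = 0 ∧
    volume (symmDiff E G) ≤ ENNReal.ofReal δ

/-- Contractions of the plane do not increase the Lebesgue (outer) measure. -/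
def S_MEAS : Prop := ∀ F : E2 → E2, LipschitzWith 1 F → ∀ A : Set E2,
  volume (F '' A) ≤ volume A

/-- Small displacement means small loss. -/
def S_ERODE : Prop := ∀ G : Set E2, IsCompact G → volume (frontier G) = 0 →
  ∀ δ : ℝ, 0 < δ → ∃ L : ℝ, 0 < L ∧ ∀ F : E2 → E2, Function.Surjective F →
    (∀ x, ‖F x - x‖ ≤ L) → volume G ≤ volume (F '' G) + ENNReal.ofReal δ

/-- The image of a Jordan measurable compact set is Jordan measurable. -/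
def S_FRONT : Prop := ∀ (h : E2 → ℝ) (L : ℝ) (F : E2 → E2) (Z : Set E2), Collapse h L F Z →
  ∀ G : Set E2, IsCompact G → volume (frontier G) = 0 → volume (frontier (F '' G)) = 0

/-- The main theorem (Q1 of MP_123306_an; Q2 is the case of compact `E`). -/
def S_MAIN : Prop := ∀ E : Set E2, NullMeasurableSet E volume → volume E < ⊤ →
  ∀ ε : ℝ, 0 < ε → ∃ (f : E2 → E2) (N : Set E2), LipschitzOnWith 1 f E ∧ volume N = 0 ∧
    volume E ≤ volume (f '' E) + ENNReal.ofReal ε ∧ IsPolygon (symmDiff (f '' E) N)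

end Pool.Agent.R244.CP
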